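import Pool.Agent.Helper70.QA.Fun

set_option autoImplicit false

namespace QA70

open Helper10.QA

/-- a linear map commuting with all operators comes from a homomorphism -/
private theorem exists_hom {A B : QRep} (hA : A.al = 0) (hB : B.al = 0) (φ0 : A.tot →ₗ[k] B.tot)
    (h : ∀ o u, φ0 (A.op o u) = B.op o (φ0 u)) : ∃ f : QHom A B, ∀ u, φ0 u = f.tot u := by
  have i0 : ∀ x, φ0 (A.in0 x) = B.in0 (B.pr0 (φ0 (A.in0 x))) := fun x => h (.e 0) (A.in0 x)
  have i1 : ∀ x, φ0 (A.in1 x) = B.in1 (B.pr1 (φ0 (A.in1 x))) := fun x => h (.e 1) (A.in1 x)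
  have i2 : ∀ x, φ0 (A.in2 x) = B.in2 (B.pr2 (φ0 (A.in2 x))) := fun x => h (.e 2) (A.in2 x)
  have i3 : ∀ x, φ0 (A.in3 x) = B.in3 (B.pr3 (φ0 (A.in3 x))) := fun x => h (.e 3) (A.in3 x)
  have i4 : ∀ x, φ0 (A.in4 x) = B.in4 (B.pr4 (φ0 (A.in4 x))) := fun x => h (.e 4) (A.in4 x)
  let f : QHom A B :=
    { f0 := B.pr0 ∘ₗ φ0 ∘ₗ A.in0
      f1 := B.pr1 ∘ₗ φ0 ∘ₗ A.in1
      f2 := B.pr2 ∘ₗ φ0 ∘ₗ A.in2
      f3 := B.pr3 ∘ₗ φ0 ∘ₗ A.in3
      f4 := B.pr4 ∘ₗ φ0 ∘ₗ A.in4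
      hb := fun l x => congrArg B.pr2 (h (.b l) (A.in1 x))
      hr := fun x => congrArg B.pr2 (h .r (A.in4 x))
      hlam := fun x => congrArg B.pr0 (h .lam (A.in1 x))
      hal := fun x => by rw [hA, hB, LinearMap.zero_apply, LinearMap.zero_apply, map_zero]
      ha := fun i j x => congrArg B.pr3 (h (.a i j) (A.in1 x))
      hc := fun i j x => congrArg B.pr3 (h (.c i j) (A.in2 x))
      hu := fun i x => congrArg B.pr3 (h (.u i) (A.in4 x)) }
  refine ⟨f, fun u => ?_⟩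
  have hs : φ0 u = B.in0 (f.f0 (A.pr0 u)) + B.in1 (f.f1 (A.pr1 u)) + B.in2 (f.f2 (A.pr2 u)) +
      B.in3 (f.f3 (A.pr3 u)) + B.in4 (f.f4 (A.pr4 u)) := by
    conv_lhs => rw [← A.sum_in u]
    rw [map_add, map_add, map_add, map_add, i0, i1, i2, i3, i4]
    rfl
  rw [hs]
  exact B.sum_in (f.tot u)

/-- A-01 (a): the decoder for representations. Use `Helper10.QA.decode` (with `N = 83`,
`s i = A.op (opEquiv i)`, `s' i = B.op (opEquiv i)`): it gives `φ0 : A.tot → B.tot` with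
`φ x i = φ0 (x i)`, commuting with all `op (opEquiv i)`, hence with all `op o` (`opEquiv` is an
equivalence).  Commuting with `op (e v)` makes `φ0` block diagonal: take
`f_v = pr_v ∘ φ0 ∘ in_v`; the arrows give the fields (`al` is trivial on both sides). -/
theorem decodeQ {A B : QRep} (hA : A.al = 0) (hB : B.al = 0) (φ : A.P →ₗ[k] B.P)
    (h1 : ∀ x, φ (A.dec 1 x) = B.dec 1 (φ x)) (h2 : ∀ x, φ (A.dec 2 x) = B.dec 2 (φ x)) :
    ∃ f : QHom A B, φ = f.diag := by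
  obtain ⟨φ0, h3, h4⟩ := decode (k := k) (N := 83) (U := A.tot) (U' := B.tot)
    (fun i => A.op (opEquiv i)) (fun i => B.op (opEquiv i)) φ h1 h2
  have h5 : ∀ o u, φ0 (A.op o u) = B.op o (φ0 u) := by
    intro o u
    have h6 := h4 (opEquiv.symm o) u
    rw [Equiv.apply_symm_apply] at h6
    exact h6
  obtain ⟨f, hf⟩ := exists_hom hA hB φ0 h5
  refine ⟨f, LinearMap.ext fun x => FM.pow_ext fun i => ?_⟩
  rw [QHom.proj_diag, ← hf]
  exact h3 x i

/-- A-01 (b) -/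
theorem diag_inj {A B : QRep} {f g : QHom A B} (h : f.diag = g.diag) : f = g := by
  have h1 : ∀ u, f.tot u = g.tot u := by
    intro u
    have h2 : f.diag (FM.single 0 u) = g.diag (FM.single 0 u) := by rw [h]
    have h3 := congrArg (FM.proj 0) h2
    rw [QHom.proj_diag, QHom.proj_diag, FM.proj_single_same] at h3
    exact h3
  apply QHom.ext
  · exact LinearMap.ext fun x => congrArg B.pr0 (h1 (A.in0 x))
  · exact LinearMap.ext fun x => congrArg B.pr1 (h1 (A.in1 x))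
  · exact LinearMap.ext fun x => congrArg B.pr2 (h1 (A.in2 x))
  · exact LinearMap.ext fun x => congrArg B.pr3 (h1 (A.in3 x))
  · exact LinearMap.ext fun x => congrArg B.pr4 (h1 (A.in4 x))

end QA70
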