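import Pool.Agent.Helper70.QA.Fun

set_option autoImplicit false

namespace QA70

open Helper10.QA

/-! A-02: injectivity facts (the free representation `M`, `QQ`, the relation map `uu`). -/

theorem bM_injective (l : Fin 3) : Function.Injective (bM l) := by
  intro v w h
  rw [bM_apply, bM_apply] at h
  exact FM.single_inj (congrArg ((FM.fst ∘ₗ FM.snd : M2 →ₗ[k] FM.pow (Fin 3) V)) h)

theorem bM_eq_bM {l l' : Fin 3} (hl : l ≠ l') {v w : V} (h : bM l v = bM l' w) :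
    v = 0 ∧ w = 0 := by
  rw [bM_apply, bM_apply] at h
  have h1 : FM.single l v = FM.single l' w :=
    congrArg ((FM.fst ∘ₗ FM.snd : M2 →ₗ[k] FM.pow (Fin 3) V)) h
  have h2 := congrArg (FM.proj l) h1
  have h3 := congrArg (FM.proj l') h1
  rw [FM.proj_single_same, FM.proj_single_ne hl] at h2
  rw [FM.proj_single_same, FM.proj_single_ne hl.symm] at h3
  exact ⟨h2, h3.symm⟩

private theorem m2P_injective : Function.Injective m2P := by
  intro m m' h
  have h1 : Mb.in2 m = Mb.in2 m' := FM.single_inj h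
  exact congrArg Mb.pr2 h1

theorem i0_injective : Function.Injective i0 := by
  intro x y h
  obtain ⟨c, v, m, rfl⟩ := M0.cases x
  obtain ⟨c', v', m', rfl⟩ := M0.cases y
  rw [i0_mk, i0_mk, Q2.mk_inj] at h
  obtain ⟨h1, h2, h3⟩ := h
  rw [M0.mk_inj]
  exact ⟨h2, bM_injective 0 h1, m2P_injective h3⟩

/-- `b_l x = b_0 y` in `QQ_2` with `l ≠ 0`: the `V_1`-parts vanish -/
theorem bQ_eq_bQ0 {l : Fin 3} (hl : l ≠ 0) {x y : Q1} (h : bQ l x = bQ 0 y) :
    FM.fst x = 0 ∧ FM.fst y = 0 ∧ Mb.dec l (FM.snd x) = FM.snd y := by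
  obtain ⟨v, x, rfl⟩ := Q1.cases x
  obtain ⟨w, y, rfl⟩ := Q1.cases y
  rw [bQ_mk, bQ_mk, Q2.mk_inj] at h
  obtain ⟨h1, -, h3⟩ := h
  obtain ⟨h4, h5⟩ := bM_eq_bM hl h1
  exact ⟨h4, h5, h3⟩

theorem bT_eq_bT0 {l : Fin 3} (hl : l ≠ 0) {x y : T1} (h : bT l x = bT 0 y) (i : Fin dd) :
    FM.fst (FM.proj i x) = 0 ∧ FM.fst (FM.proj i y) = 0 ∧
      Mb.dec l (FM.snd (FM.proj i x)) = FM.snd (FM.proj i y) :=
  bQ_eq_bQ0 hl (congrArg (FM.proj i) h)

theorem bT0_injective : Function.Injective (bT 0) := by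
  intro x y h
  apply FM.pow_ext
  intro i
  have h1 : bQ 0 (FM.proj i x) = bQ 0 (FM.proj i y) := congrArg (FM.proj i) h
  obtain ⟨v, x', hx⟩ := Q1.cases (FM.proj i x)
  obtain ⟨w, y', hy⟩ := Q1.cases (FM.proj i y)
  rw [hx, hy, bQ_mk, bQ_mk, Q2.mk_inj] at h1
  obtain ⟨h2, -, h3⟩ := h1
  rw [hx, hy, Q1.mk_inj]
  exact ⟨bM_injective 0 h2, h3⟩

theorem jQ_injective : Function.Injective jQ := by
  intro m m' h
  have h1 : FM.single (0 : QRep.NC) m = FM.single (0 : QRep.NC) m' :=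
    congrArg (FM.snd : Q1 →ₗ[k] Mb.P) h
  exact FM.single_inj h1

/-- `m` is determined by `mb` and `m_0` -/
theorem tot_eq_zero {m : M.tot} (h1 : toMb.tot m = 0) (h2 : M.pr0 m = 0) : m = 0 := by
  apply M.tot_ext
  · rw [h2, map_zero]
  · exact congrArg Mb.pr1 h1
  · exact congrArg Mb.pr2 h1
  · exact congrArg Mb.pr3 h1
  · exact congrArg Mb.pr4 h1

private theorem rel_zero {m : M.tot} {y : F3} (h : uu m = y) (i : Fin dd)
    (h1 : FM.proj (i, (0 : Fin 2)) (FM.fst (FM.snd y)) = 0)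
    (h2 : FM.proj (i, (1 : Fin 2)) (FM.snd (FM.snd y)) = 0) : m = 0 := by
  subst h
  have h3 : cp1 i (jQ (toMb.tot m)) = 0 := h1
  have h4 : cp2 i (i0 (M.pr0 m)) = 0 := h2
  have h5 : jQ (toMb.tot m) = 0 := FM.single_eq_zero.1 h3
  have h6 : i0 (M.pr0 m) = 0 := FM.single_eq_zero.1 h4
  exact tot_eq_zero (jQ_injective (h5.trans (map_zero jQ).symm))
    (i0_injective (h6.trans (map_zero i0).symm))

theorem uu_injective : Function.Injective uu := by
  rw [injective_iff_map_eq_zero]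
  intro m h
  exact rel_zero h 0 rfl rfl

private theorem exists_other (i : Fin dd) : ∃ i' : Fin dd, i' ≠ i := by
  by_cases h : i = 0
  · exact ⟨1, by rw [h]; decide⟩
  · exact ⟨0, fun h' => h h'.symm⟩

/-- if `a_ij x` is a relation then `x = 0` (look at the components `a_(i',0)` and `c_(i',1)` of
`uu m` for some `i' ≠ i`) -/
theorem aF_zero {i : Fin dd} {j : Fin 2} {x : T1} (h : mkT3 (aF i j x) = 0) : x = 0 := by
  obtain ⟨m, hm⟩ := FM.mkq_eq_zero.1 h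
  obtain ⟨i', hi⟩ := exists_other i
  have h0 : m = 0 := by
    refine rel_zero hm i' ?_ rfl
    show FM.proj (i', (0 : Fin 2)) (FM.single (i, j) x) = 0
    exact FM.proj_single_ne (fun h' => hi (congrArg Prod.fst h')) x
  rw [h0, map_zero] at hm
  have h1 : FM.single (i, j) x = 0 :=
    (congrArg ((FM.fst ∘ₗ FM.snd : F3 →ₗ[k] FM.pow (Fin dd × Fin 2) T1)) hm).symm
  exact FM.single_eq_zero.1 h1

theorem cF_zero {i : Fin dd} {j : Fin 2} {x : T2} (h : mkT3 (cF i j x) = 0) : x = 0 := by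
  obtain ⟨m, hm⟩ := FM.mkq_eq_zero.1 h
  obtain ⟨i', hi⟩ := exists_other i
  have h0 : m = 0 := by
    refine rel_zero hm i' rfl ?_
    show FM.proj (i', (1 : Fin 2)) (FM.single (i, j) x) = 0
    exact FM.proj_single_ne (fun h' => hi (congrArg Prod.fst h')) x
  rw [h0, map_zero] at hm
  have h1 : FM.single (i, j) x = 0 :=
    (congrArg ((FM.snd ∘ₗ FM.snd : F3 →ₗ[k] FM.pow (Fin dd × Fin 2) T2)) hm).symm
  exact FM.single_eq_zero.1 h1

theorem uF_zero {i : Fin dd} {x : T4} (h : mkT3 (uF i x) = 0) : x = 0 := by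
  obtain ⟨m, hm⟩ := FM.mkq_eq_zero.1 h
  have h0 : m = 0 := rel_zero hm 0 rfl rfl
  rw [h0, map_zero] at hm
  have h1 : FM.single i x = 0 :=
    (congrArg ((FM.fst : F3 →ₗ[k] FM.pow (Fin dd) T4)) hm).symm
  exact FM.single_eq_zero.1 h1

/-- `F_3` is spanned by the images of `aF`, `cF`, `uF` -/
theorem hom_F3_ext {B : FM} {f g : F3 →ₗ[k] B} (ha : ∀ i j x, f (aF i j x) = g (aF i j x))
    (hc : ∀ i j x, f (cF i j x) = g (cF i j x)) (hu : ∀ i x, f (uF i x) = g (uF i x)) :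
    f = g := by
  have h1 : f ∘ₗ FM.inl = g ∘ₗ FM.inl := FM.hom_pow_ext fun i x => hu i x
  have h2 : f ∘ₗ FM.inr ∘ₗ FM.inl = g ∘ₗ FM.inr ∘ₗ FM.inl :=
    FM.hom_pow_ext fun ij x => ha ij.1 ij.2 x
  have h3 : f ∘ₗ FM.inr ∘ₗ FM.inr = g ∘ₗ FM.inr ∘ₗ FM.inr :=
    FM.hom_pow_ext fun ij x => hc ij.1 ij.2 x
  have h4 : f ∘ₗ FM.inr = g ∘ₗ FM.inr :=
    FM.hom_prod_ext (fun a => LinearMap.congr_fun h2 a) (fun b => LinearMap.congr_fun h3 b)
  exact FM.hom_prod_ext (fun a => LinearMap.congr_fun h1 a) (fun b => LinearMap.congr_fun h4 b)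

end QA70
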