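import Pool.Agent.Helper70.QA.Bicomm

set_option autoImplicit false

namespace QA70

open Helper10.QA

private theorem tot_in1' {A B : QRep} (f : QHom A B) (y : A.U1) :
    f.tot (A.in1 y) = B.in1 (f.f1 y) := by simp
private theorem tot_in2' {A B : QRep} (f : QHom A B) (y : A.U2) :
    f.tot (A.in2 y) = B.in2 (f.f2 y) := by simp
private theorem tot_in3' {A B : QRep} (f : QHom A B) (y : A.U3) :
    f.tot (A.in3 y) = B.in3 (f.f3 y) := by simp
private theorem tot_in4' {A B : QRep} (f : QHom A B) (y : A.U4) :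
    f.tot (A.in4 y) = B.in4 (f.f4 y) := by simp

private theorem gX_0 (i : Fin 4) : FM.proj (⟨i.val, by omega⟩ : QRep.NC) gX =
    T.in1 (cp1 0 (jQ (Mb.in1 (eV i)))) := by
  unfold gX
  rw [FM.proj_ofFun, dif_pos (show i.val < 4 from i.isLt)]

private theorem gX_1 (i : Fin 4) : FM.proj (⟨4 + i.val, by omega⟩ : QRep.NC) gX =
    T.in1 (cp1 0 (jQ (Mb.in2 (vM2 (eV i))))) := by
  have h : (⟨4 + i.val - 4, by omega⟩ : Fin 4) = i := Fin.ext (by simp)
  unfold gX
  rw [FM.proj_ofFun, dif_neg (show ¬ (4 + i.val < 4) by omega),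
    dif_pos (show 4 + i.val - 4 < 4 by omega)]
  show T.in1 (cp1 0 (jQ (Mb.in2 (vM2 (eV ⟨4 + i.val - 4, _⟩))))) = _
  rw [h]

private theorem gX_2 (i : Fin 4) : FM.proj (⟨8 + i.val, by omega⟩ : QRep.NC) gX =
    T.in1 (cp1 0 (jQ (Mb.in3 (vM3 (eV i))))) := by
  have h : (⟨8 + i.val - 8, by omega⟩ : Fin 4) = i := Fin.ext (by simp)
  unfold gX
  rw [FM.proj_ofFun, dif_neg (show ¬ (8 + i.val < 4) by omega),
    dif_neg (show ¬ (8 + i.val - 4 < 4) by omega),
    dif_pos (show 8 + i.val - 8 < 4 by omega)]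
  show T.in1 (cp1 0 (jQ (Mb.in3 (vM3 (eV ⟨8 + i.val - 8, _⟩))))) = _
  rw [h]

private theorem gX_3 (i : Fin 4) : FM.proj (⟨12 + i.val, by omega⟩ : QRep.NC) gX =
    T.in1 (cp1 0 (jQ (Mb.in4 (eV i)))) := by
  have h : (⟨12 + i.val - 12, by omega⟩ : Fin 4) = i := Fin.ext (by simp)
  unfold gX
  rw [FM.proj_ofFun, dif_neg (show ¬ (12 + i.val < 4) by omega),
    dif_neg (show ¬ (12 + i.val - 4 < 4) by omega),
    dif_neg (show ¬ (12 + i.val - 8 < 4) by omega),
    dif_pos (show 12 + i.val - 12 < 4 by omega)]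
  show T.in1 (cp1 0 (jQ (Mb.in4 (eV ⟨12 + i.val - 12, _⟩)))) = _
  rw [h]

private theorem gX_4 : FM.proj (⟨16, by omega⟩ : QRep.NC) gX =
    T.in2 (cp2 0 (Q2.mk 0 (FM.ofK 1) 0)) := by
  unfold gX
  rw [FM.proj_ofFun, dif_neg (show ¬ ((16 : ℕ) < 4) by omega),
    dif_neg (show ¬ ((16 : ℕ) - 4 < 4) by omega),
    dif_neg (show ¬ ((16 : ℕ) - 8 < 4) by omega),
    dif_neg (show ¬ ((16 : ℕ) - 12 < 4) by omega), if_pos rfl]

private theorem key1 {γ : MM} {c : k} {m : Mb.tot}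
    (h : (TT γ).tot (T.in1 (cp1 0 (jQ m))) = c • T.in1 (cp1 0 (jQ m))) :
    (bar γ).tot m = c • m := by
  rw [tot_in1'] at h
  have h1 : (TT γ).f1 (cp1 0 (jQ m)) = cp1 0 (jQ ((bar γ).tot m)) := by
    show t1 γ (cp1 0 (jQ m)) = _
    rw [t1_cp, q1_jQ]
  rw [h1, ← map_smul, ← map_smul, ← map_smul] at h
  have h2 : cp1 0 (jQ ((bar γ).tot m)) = cp1 0 (jQ (c • m)) := congrArg T.pr1 h
  exact jQ_injective (FM.single_inj h2)

private theorem K_eq (a : FM.K) : a = FM.toK a • FM.ofK 1 := by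
  have h : (FM.toK a : k) = FM.toK a • (1 : k) := (mul_one _).symm
  exact h

private theorem V_ext {B : FM} {f g : V →ₗ[k] B} (h : ∀ i, f (eV i) = g (eV i)) : f = g := by
  apply FM.hom_pow_ext
  intro i a
  have h1 : (FM.single i a : V) = FM.toK a • eV i := by
    unfold eV
    rw [← map_smul, ← K_eq]
  rw [h1, map_smul, map_smul, h]

private theorem M2_ext {B : FM} {f g : M2 →ₗ[k] B} (h1 : ∀ v, f (vM2 v) = g (vM2 v))
    (h2 : ∀ l v, f (bM l v) = g (bM l v)) (h3 : ∀ v, f (rM v) = g (rM v)) : f = g := by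
  apply FM.hom_prod_ext
  · exact h1
  · intro b
    have h4 : f ∘ₗ FM.inr = g ∘ₗ FM.inr := by
      apply FM.hom_prod_ext
      · intro a
        have h5 : (f ∘ₗ FM.inr ∘ₗ FM.inl : FM.pow (Fin 3) V →ₗ[k] B) = g ∘ₗ FM.inr ∘ₗ FM.inl := by
          apply FM.hom_pow_ext
          intro l v
          exact h2 l v
        exact LinearMap.congr_fun h5 a
      · intro b
        exact h3 b
    exact LinearMap.congr_fun h4 b

private theorem M3_ext {B : FM} {f g : M3 →ₗ[k] B} (h1 : ∀ v, f (vM3 v) = g (vM3 v))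
    (h2 : ∀ i j v, f (aM i j v) = g (aM i j v)) (h3 : ∀ i j v, f (cM i j v) = g (cM i j v))
    (h4 : ∀ i v, f (uM i v) = g (uM i v)) : f = g := by
  apply FM.hom_prod_ext
  · exact h1
  · intro b
    have h5 : f ∘ₗ FM.inr = g ∘ₗ FM.inr := by
      apply FM.hom_prod_ext
      · intro a
        have h6 : (f ∘ₗ FM.inr ∘ₗ FM.inl : FM.pow (Fin dd × Fin 2) V →ₗ[k] B) =
            g ∘ₗ FM.inr ∘ₗ FM.inl := by
          apply FM.hom_pow_ext
          rintro ⟨i, j⟩ v
          exact h2 i j v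
        exact LinearMap.congr_fun h6 a
      · intro b
        have h7 : (f ∘ₗ FM.inr) ∘ₗ FM.inr = (g ∘ₗ FM.inr) ∘ₗ FM.inr := by
          apply FM.hom_prod_ext
          · intro a
            have h8 : (f ∘ₗ FM.inr ∘ₗ FM.inr ∘ₗ FM.inl : FM.pow (Fin dd × Fin 2) M2 →ₗ[k] B) =
                g ∘ₗ FM.inr ∘ₗ FM.inr ∘ₗ FM.inl := by
              apply FM.hom_pow_ext
              rintro ⟨i, j⟩ v
              exact h3 i j v
            exact LinearMap.congr_fun h8 a
          · intro b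
            have h9 : (f ∘ₗ FM.inr ∘ₗ FM.inr ∘ₗ FM.inr : FM.pow (Fin dd) V →ₗ[k] B) =
                g ∘ₗ FM.inr ∘ₗ FM.inr ∘ₗ FM.inr := by
              apply FM.hom_pow_ext
              intro i v
              exact h4 i v
            exact LinearMap.congr_fun h9 b
        exact LinearMap.congr_fun h7 b
    exact LinearMap.congr_fun h5 b

private theorem M0_ext {B : FM} {f g : M0 →ₗ[k] B} (h1 : f (vM0 (FM.ofK 1)) = g (vM0 (FM.ofK 1)))
    (h2 : ∀ v, f (lamM v) = g (lamM v)) (h3 : ∀ v, f (alM v) = g (alM v)) : f = g := by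
  apply FM.hom_prod_ext
  · intro a
    have h4 : (FM.mk a 0 : M0) = FM.toK a • vM0 (FM.ofK 1) := by
      rw [← map_smul, ← K_eq]
      rfl
    rw [h4, map_smul, map_smul, h1]
  · intro b
    have h4 : f ∘ₗ FM.inr = g ∘ₗ FM.inr := by
      apply FM.hom_prod_ext
      · exact h2
      · exact h3
    exact LinearMap.congr_fun h4 b

private theorem TT_zero : TT 0 = 0 := by
  have h := TT_add 0 0
  rw [add_zero] at h
  have h2 : TT 0 + 0 = TT 0 + TT 0 := by rw [add_zero]; exact h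
  exact (add_left_cancel h2).symm

/-- A-04 (a): `End_K(X) = k`. `φ1 = φ2` by `b 0 = dec 0 = id`, `φ1 = f.diag` with `f : QHom T T`
(`decodeQ`), `f = TT γ` (`bicommT`); `φ4 = c`, and `φ2 (rX 1) = rX (φ4 1)` says
`f.tot (gX s) = c • gX s` for every coordinate `s`: coordinates `0..15` give `bar γ (v) = c v` for
the basis vectors of `V_1..V_4` (`q1_jQ`, `jQ_injective`), coordinate `16` gives
`i0 (γ.f0 (vM0 1)) = c • i0 (vM0 1)`, so `γ = c`. -/
theorem endX (φ : QHom X X) : ∃ c : k, φ = c • (1 : QHom X X) := by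
  have h12 : φ.f1 = φ.f2 := by
    ext x
    exact (φ.hb 0 x).symm
  have hd : ∀ l x, φ.f1 (T.dec l x) = T.dec l (φ.f1 x) := by
    intro l x
    rw [h12]
    have h1 := φ.hb l x
    rw [h12] at h1
    exact h1
  obtain ⟨f, hf⟩ := decodeQ (A := T) (B := T) rfl rfl φ.f1 (hd 1) (hd 2)
  obtain ⟨γ, rfl⟩ := bicommT f
  set c : k := FM.toK (φ.f4 (FM.ofK 1)) with hc
  have hg : (TT γ).diag gX = c • gX := by
    have h1 := φ.hr (FM.ofK 1)
    rw [← h12] at h1
    have h2 : X.r (FM.ofK 1) = gX := by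
      show (1 : k) • gX = gX
      exact one_smul _ _
    have h3 : X.r (φ.f4 (FM.ofK 1)) = c • gX := rfl
    rw [h2, h3] at h1
    rw [← h1]
    exact (LinearMap.congr_fun hf gX).symm
  have hgs : ∀ s, (TT γ).tot (FM.proj s gX) = c • FM.proj s gX := by
    intro s
    rw [← QHom.proj_diag, hg, map_smul]
  have e1 : ∀ i, γ.f1 (eV i) = c • eV i := by
    intro i
    have h1 := hgs ⟨i.val, by omega⟩
    rw [gX_0] at h1
    have h2 := congrArg Mb.pr1 (key1 h1)
    rw [tot_in1'] at h2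
    exact h2
  have e2 : ∀ i, γ.f2 (vM2 (eV i)) = c • vM2 (eV i) := by
    intro i
    have h1 := hgs ⟨4 + i.val, by omega⟩
    rw [gX_1] at h1
    have h2 := congrArg Mb.pr2 (key1 h1)
    rw [tot_in2'] at h2
    exact h2
  have e3 : ∀ i, γ.f3 (vM3 (eV i)) = c • vM3 (eV i) := by
    intro i
    have h1 := hgs ⟨8 + i.val, by omega⟩
    rw [gX_2] at h1
    have h2 := congrArg Mb.pr3 (key1 h1)
    rw [tot_in3'] at h2
    exact h2
  have e4 : ∀ i, γ.f4 (eV i) = c • eV i := by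
    intro i
    have h1 := hgs ⟨12 + i.val, by omega⟩
    rw [gX_3] at h1
    have h2 := congrArg Mb.pr4 (key1 h1)
    rw [tot_in4'] at h2
    exact h2
  have e0 : γ.f0 (vM0 (FM.ofK 1)) = c • vM0 (FM.ofK 1) := by
    have h1 := hgs ⟨16, by omega⟩
    rw [gX_4, tot_in2'] at h1
    have h2 : (TT γ).f2 (cp2 0 (Q2.mk 0 (FM.ofK 1) 0)) = cp2 0 (i0 (γ.f0 (vM0 (FM.ofK 1)))) := by
      show t2 γ (cp2 0 (Q2.mk 0 (FM.ofK 1) 0)) = _
      rw [t2_cp, q2_mk, map_zero, map_zero, Q2.mk_zero, zero_add, add_zero]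
    have h3 : (Q2.mk 0 (FM.ofK 1) 0 : Q2) = i0 (vM0 (FM.ofK 1)) := by
      rw [vM0_apply, i0_mk, map_zero, map_zero]
    rw [h2, h3, ← map_smul, ← map_smul, ← map_smul] at h1
    have h4 : cp2 0 (i0 (γ.f0 (vM0 (FM.ofK 1)))) = cp2 0 (i0 (c • vM0 (FM.ofK 1))) :=
      congrArg T.pr2 h1
    exact i0_injective (FM.single_inj h4)
  have g1 : γ.f1 = c • LinearMap.id := V_ext e1
  have g4 : γ.f4 = c • LinearMap.id := V_ext e4
  have g2 : γ.f2 = c • LinearMap.id := by
    apply M2_ext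
    · intro v
      have h1 : γ.f2 ∘ₗ vM2 = (c • LinearMap.id) ∘ₗ vM2 := V_ext e2
      exact LinearMap.congr_fun h1 v
    · intro l v
      have h1 := γ.hb l v
      rw [g1] at h1
      refine h1.trans ?_
      exact map_smul (bM l) c v
    · intro v
      have h1 := γ.hr v
      rw [g4] at h1
      refine h1.trans ?_
      exact map_smul rM c v
  have g3 : γ.f3 = c • LinearMap.id := by
    apply M3_ext
    · intro v
      have h1 : γ.f3 ∘ₗ vM3 = (c • LinearMap.id) ∘ₗ vM3 := V_ext e3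
      exact LinearMap.congr_fun h1 v
    · intro i j v
      have h1 := γ.ha i j v
      rw [g1] at h1
      refine h1.trans ?_
      exact map_smul (aM i j) c v
    · intro i j v
      have h1 := γ.hc i j v
      rw [g2] at h1
      refine h1.trans ?_
      exact map_smul (cM i j) c v
    · intro i v
      have h1 := γ.hu i v
      rw [g4] at h1
      refine h1.trans ?_
      exact map_smul (uM i) c v
  have g0 : γ.f0 = c • LinearMap.id := by
    apply M0_ext
    · exact e0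
    · intro v
      have h1 := γ.hlam v
      rw [g1] at h1
      refine h1.trans ?_
      exact map_smul lamM c v
    · intro v
      have h1 := γ.hal v
      rw [g2] at h1
      refine h1.trans ?_
      exact map_smul alM c v
  have hγ : γ = c • (1 : MM) := QHom.ext g0 g1 g2 g3 g4
  have hT : TT γ = c • (1 : QHom T T) := by
    rw [hγ]
    have hc01 : ∀ t : k, TT (t • (1 : MM)) = t • (1 : QHom T T) := by
      intro t
      have h01 : t = 0 ∨ t = 1 := by
        revert t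
        decide
      rcases h01 with rfl | rfl
      · rw [zero_smul, zero_smul, TT_zero]
      · rw [one_smul, one_smul, TT_one]
    exact hc01 c
  have h1 : φ.f1 = c • LinearMap.id := by
    rw [hf, hT]
    rfl
  refine ⟨c, QHom.ext (FM.to_Z_eq _ _) h1 (h12 ▸ h1) (FM.to_Z_eq _ _) ?_⟩
  apply LinearMap.ext
  intro x
  have h3 : φ.f4 (FM.ofK 1) = c • FM.ofK 1 := K_eq _
  have h4 : φ.f4 x = FM.toK x • φ.f4 (FM.ofK 1) := by
    have h5 : φ.f4 x = φ.f4 (FM.toK x • FM.ofK 1) := congrArg φ.f4 (K_eq x)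
    rw [h5, map_smul]
  rw [h4, h3]
  have h6 : (c • (1 : QHom X X)).f4 x = c • x := rfl
  rw [h6]
  conv_rhs => rw [K_eq x]
  rw [smul_comm]

/-- A-04 (b): `Hom_Qp(X, Tp) = 0` (`X_3 = 0`, so `a_00 (f x) = 0` in `T_3`, and `aF_zero` etc.) -/
theorem homXTp (f : QHom X Tp) : f = 0 := by
  have h3 : ∀ x, f.f3 x = 0 := by
    intro x
    rw [FM.Z_eq x 0, map_zero]
  refine QHom.ext (FM.of_Z_eq _ _) ?_ ?_ (FM.of_Z_eq _ _) ?_
  · apply LinearMap.ext
    intro x
    have h1 := f.ha 0 0 x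
    rw [h3] at h1
    exact aF_zero h1.symm
  · apply LinearMap.ext
    intro x
    have h1 := f.hc 0 0 x
    rw [h3] at h1
    exact cF_zero h1.symm
  · apply LinearMap.ext
    intro x
    have h1 := f.hu 0 x
    rw [h3] at h1
    exact uF_zero h1.symm

end QA70
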