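import Pool.Agent.Helper70.QA.DecQ
import Pool.Agent.Helper70.QA.Inj

set_option autoImplicit false

namespace QA70

open Helper10.QA

/-! auxiliary facts for A-03 -/

/-- the lift of `τ` to `F_3` -/
private noncomputable def liftF (τ : QHom Tp Tp) : F3 →ₗ[k] F3 :=
  FM.map (FM.pmap τ.f4) (FM.map (FM.pmap τ.f1) (FM.pmap τ.f2))

private theorem liftF_aF (τ : QHom Tp Tp) (i : Fin dd) (j : Fin 2) (x : T1) :
    liftF τ (aF i j x) = aF i j (τ.f1 x) := by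
  rw [aF_apply, aF_apply]
  show FM.mk (FM.pmap τ.f4 0) (FM.mk (FM.pmap τ.f1 (FM.single (i, j) x))
    (FM.pmap τ.f2 0)) = _
  rw [FM.pmap_single, map_zero, map_zero]

private theorem liftF_cF (τ : QHom Tp Tp) (i : Fin dd) (j : Fin 2) (x : T2) :
    liftF τ (cF i j x) = cF i j (τ.f2 x) := by
  rw [cF_apply, cF_apply]
  show FM.mk (FM.pmap τ.f4 0) (FM.mk (FM.pmap τ.f1 0)
    (FM.pmap τ.f2 (FM.single (i, j) x))) = _
  rw [FM.pmap_single, map_zero, map_zero]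

private theorem liftF_uF (τ : QHom Tp Tp) (i : Fin dd) (x : T4) :
    liftF τ (uF i x) = uF i (τ.f4 x) := by
  rw [uF_apply, uF_apply]
  show FM.mk (FM.pmap τ.f4 (FM.single i x)) (FM.mk (FM.pmap τ.f1 0)
    (FM.pmap τ.f2 0)) = _
  rw [FM.pmap_single, map_zero, map_zero]

private theorem mk_liftF (τ : QHom Tp Tp) (x : F3) : τ.f3 (mkT3 x) = mkT3 (liftF τ x) := by
  have h : τ.f3 ∘ₗ mkT3 = mkT3 ∘ₗ liftF τ := by
    apply hom_F3_ext
    · intro i j x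
      show τ.f3 (mkT3 (aF i j x)) = mkT3 (liftF τ (aF i j x))
      rw [liftF_aF]
      exact τ.ha i j x
    · intro i j x
      show τ.f3 (mkT3 (cF i j x)) = mkT3 (liftF τ (cF i j x))
      rw [liftF_cF]
      exact τ.hc i j x
    · intro i x
      show τ.f3 (mkT3 (uF i x)) = mkT3 (liftF τ (uF i x))
      rw [liftF_uF]
      exact τ.hu i x
  exact LinearMap.congr_fun h x

private theorem liftF_uu_mem (τ : QHom Tp Tp) (m : M.tot) :
    liftF τ (uu m) ∈ LinearMap.range uu := by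
  have h0 : mkT3 (uu m) = 0 := FM.mkq_eq_zero.2 ⟨m, rfl⟩
  have h : mkT3 (liftF τ (uu m)) = 0 := by
    rw [← mk_liftF, h0, map_zero]
  exact FM.mkq_eq_zero.1 h

private theorem exists_phi (τ : QHom Tp Tp) :
    ∃ Φ : M.tot →ₗ[k] M.tot, ∀ m, uu (Φ m) = liftF τ (uu m) := by
  have hinj : Function.Injective uu := uu_injective
  choose φ hφ using fun m => liftF_uu_mem τ m
  refine ⟨{ toFun := φ, map_add' := ?_, map_smul' := ?_ }, fun m => hφ m⟩
  · intro x y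
    apply hinj
    rw [hφ, map_add, map_add, map_add, hφ, hφ]
  · intro c x
    apply hinj
    rw [hφ, RingHom.id_apply, map_smul, map_smul, map_smul, hφ]

/-- the five relations between `τ` and `Φ` -/
private structure Rels (τ : QHom Tp Tp) (Φ : M.tot →ₗ[k] M.tot) : Prop where
  r4 : ∀ i m, τ.f4 (cp4 i (M.pr4 m)) = cp4 i (M.pr4 (Φ m))
  r10 : ∀ i m, τ.f1 (cp1 i (jQ (toMb.tot m))) = cp1 i (jQ (toMb.tot (Φ m)))
  r11 : ∀ i m, τ.f1 (cp1 i (FM.mk (M.pr1 m) 0)) = cp1 i (FM.mk (M.pr1 (Φ m)) 0)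
  r20 : ∀ i m, τ.f2 (cp2 i (Q2.mk (M.pr2 m) 0 0)) = cp2 i (Q2.mk (M.pr2 (Φ m)) 0 0)
  r21 : ∀ i m, τ.f2 (cp2 i (i0 (M.pr0 m))) = cp2 i (i0 (M.pr0 (Φ m)))

private theorem exists_rels (τ : QHom Tp Tp) : ∃ Φ : M.tot →ₗ[k] M.tot, Rels τ Φ := by
  obtain ⟨Φ, hΦ⟩ := exists_phi τ
  refine ⟨Φ, ?_, ?_, ?_, ?_, ?_⟩
  · intro i m
    exact (congrArg (fun y : F3 => FM.proj i (FM.fst y)) (hΦ m)).symm
  · intro i m
    exact (congrArg (fun y : F3 => FM.proj (i, (0 : Fin 2)) (FM.fst (FM.snd y))) (hΦ m)).symm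
  · intro i m
    exact (congrArg (fun y : F3 => FM.proj (i, (1 : Fin 2)) (FM.fst (FM.snd y))) (hΦ m)).symm
  · intro i m
    exact (congrArg (fun y : F3 => FM.proj (i, (0 : Fin 2)) (FM.snd (FM.snd y))) (hΦ m)).symm
  · intro i m
    exact (congrArg (fun y : F3 => FM.proj (i, (1 : Fin 2)) (FM.snd (FM.snd y))) (hΦ m)).symm

/-- the part `(Mb_tot^N)^d` of `T_1` -/
private noncomputable def iT : FM.pow (Fin dd) Mb.P →ₗ[k] T1 := FM.pmap FM.inr

private theorem bT_iT (l : Fin 3) (x : FM.pow (Fin dd) Mb.P) :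
    bT l (iT x) = bT 0 (iT (FM.pmap (Mb.dec l) x)) := by
  apply FM.pow_ext
  intro i
  show bQ l (FM.mk 0 (FM.proj i x)) = bQ 0 (FM.mk 0 (Mb.dec l (FM.proj i x)))
  rw [bQ_mk, bQ_mk, map_zero, map_zero]
  rfl

private theorem tau_iT (τ : QHom Tp Tp) {l : Fin 3} (hl : l ≠ 0) (x : FM.pow (Fin dd) Mb.P)
    (i : Fin dd) :
    FM.fst (FM.proj i (τ.f1 (iT x))) = 0 ∧
      Mb.dec l (FM.snd (FM.proj i (τ.f1 (iT x)))) =
        FM.snd (FM.proj i (τ.f1 (iT (FM.pmap (Mb.dec l) x)))) := by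
  have h : bT l (τ.f1 (iT x)) = bT 0 (τ.f1 (iT (FM.pmap (Mb.dec l) x))) := by
    have h1 : τ.f2 (bT l (iT x)) = bT l (τ.f1 (iT x)) := τ.hb l (iT x)
    have h2 : τ.f2 (bT 0 (iT (FM.pmap (Mb.dec l) x))) =
      bT 0 (τ.f1 (iT (FM.pmap (Mb.dec l) x))) := τ.hb 0 _
    rw [← h1, ← h2, bT_iT]
  have h3 := bT_eq_bT0 hl h i
  exact ⟨h3.1, h3.2.2⟩

/-- the block of `τ1` from copy `i` to copy `i'` -/
private noncomputable def blk (τ : QHom Tp Tp) (i i' : Fin dd) : Mb.P →ₗ[k] Mb.P :=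
  FM.snd ∘ₗ FM.proj i' ∘ₗ τ.f1 ∘ₗ iT ∘ₗ FM.single i

private theorem blk_dec (τ : QHom Tp Tp) (i i' : Fin dd) {l : Fin 3} (hl : l ≠ 0) (x : Mb.P) :
    blk τ i i' (Mb.dec l x) = Mb.dec l (blk τ i i' x) := by
  have h := (tau_iT τ hl (FM.single i x) i').2
  rw [FM.pmap_single] at h
  exact h.symm

private theorem exists_blk (τ : QHom Tp Tp) (i i' : Fin dd) :
    ∃ f : QHom Mb Mb, blk τ i i' = f.diag :=
  decodeQ rfl rfl _ (fun x => blk_dec τ i i' (by decide) x)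
    (fun x => blk_dec τ i i' (by decide) x)

private theorem tau_single (τ : QHom Tp Tp) (i i' : Fin dd) (x : Mb.P) :
    FM.proj i' (τ.f1 (cp1 i (FM.mk 0 x))) = FM.mk 0 (blk τ i i' x) := by
  have h0 : cp1 i (FM.mk 0 x) = iT (FM.single i x) := by
    show FM.single i (FM.inr x) = FM.pmap FM.inr (FM.single i x)
    rw [FM.pmap_single]
  apply FM.prod_ext
  · rw [h0]
    exact (tau_iT τ (l := 1) (by decide) (FM.single i x) i').1
  · rw [h0]
    rfl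

private theorem toMb_tot_surj (y : Mb.tot) : ∃ m : M.tot, toMb.tot m = y := by
  obtain ⟨x0, x1, x2, x3, x4, rfl⟩ := Mb.tmk_cases y
  exact ⟨M.tmk (ofMb0 x0) x1 x2 x3 x4, rfl⟩

private theorem QHom.ext_tot {A B : QRep} {f g : QHom A B} (h : ∀ x, f.tot x = g.tot x) :
    f = g := by
  ext x
  · exact congrArg B.pr0 (h (A.tmk x 0 0 0 0))
  · exact congrArg B.pr1 (h (A.tmk 0 x 0 0 0))
  · exact congrArg B.pr2 (h (A.tmk 0 0 x 0 0))
  · exact congrArg B.pr3 (h (A.tmk 0 0 0 x 0))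
  · exact congrArg B.pr4 (h (A.tmk 0 0 0 0 x))

private theorem exists_f (τ : QHom Tp Tp) (Φ : M.tot →ₗ[k] M.tot) (H : Rels τ Φ) :
    ∃ f : QHom Mb Mb, (∀ i i', blk τ i i' = if i' = i then f.diag else 0) ∧
      ∀ m, f.tot (toMb.tot m) = toMb.tot (Φ m) := by
  choose F hF using fun i i' => exists_blk τ i i'
  have hd : ∀ i i' (y : Mb.tot), (F i i').diag (FM.single 0 y) =
      FM.single 0 ((F i i').tot y) := fun i i' y => FM.pmap_single _ _ _
  have key : ∀ i i' m, FM.mk (0 : V) (FM.single (0 : QRep.NC) ((F i i').tot (toMb.tot m))) =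
      FM.proj i' (cp1 i (jQ (toMb.tot (Φ m)))) := by
    intro i i' m
    rw [← H.r10 i m]
    have h1 : (jQ (toMb.tot m) : Q1) = FM.mk 0 (FM.single 0 (toMb.tot m)) := rfl
    rw [h1, tau_single, hF, hd]
  have hne : ∀ i i', i' ≠ i → F i i' = 0 := by
    intro i i' hi
    apply QHom.ext_tot
    intro y
    obtain ⟨m, rfl⟩ := toMb_tot_surj y
    have h1 := key i i' m
    rw [show FM.proj i' (cp1 i (jQ (toMb.tot (Φ m)))) = 0 from FM.proj_single_ne hi _,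
      FM.mk_eq_zero] at h1
    rw [FM.single_eq_zero.1 h1.2]
    rfl
  have heq : ∀ i m, (F i i).tot (toMb.tot m) = toMb.tot (Φ m) := by
    intro i m
    have h1 := key i i m
    rw [show FM.proj i (cp1 i (jQ (toMb.tot (Φ m)))) = jQ (toMb.tot (Φ m)) from
      FM.proj_single_same _ _] at h1
    have h2 := congrArg (FM.snd : Q1 →ₗ[k] Mb.P) h1
    exact FM.single_inj h2
  have hii : ∀ i, F i i = F 0 0 := by
    intro i
    apply QHom.ext_tot
    intro y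
    obtain ⟨m, rfl⟩ := toMb_tot_surj y
    rw [heq, heq]
  refine ⟨F 0 0, ?_, heq 0⟩
  intro i i'
  split_ifs with h
  · subst h
    rw [hF, hii]
  · rw [hF, hne i i' h]
    rfl

/-- A-03, the bicommutant. Proof. Let `τ : Tp → Tp`. Lift `τ` to `σ := F_3 → F_3`,
`σ (aF i j x) = aF i j (τ1 x)` etc. (`FM.map (FM.pmap τ4) (FM.map (FM.pmap τ1) (FM.pmap τ2))`):
`mkT3 (σ y) = τ3 (mkT3 y)` for all `y` (`hom_F3_ext`), so `σ (uu m)` is a relation `uu (Φ m)`;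
`Φ` is linear because `uu` is injective.  Comparing components:
`τ4 (cp4 i m_4) = cp4 i (Φ m)_4`, `τ1 (cp1 i (jQ mb)) = cp1 i (jQ (Φ m)b)`,
`τ1 (cp1 i (m_1,0)) = cp1 i ((Φ m)_1,0)`, `τ2 (cp2 i (m_2,0,0)) = cp2 i ((Φ m)_2,0,0)`,
`τ2 (cp2 i (i0 m_0)) = cp2 i (i0 (Φ m)_0)`.
For `x` in the part `(Mb_tot^N)^d` of `T_1`: `bT l (τ1 x) = τ2 (bT l x) = τ2 (bT 0 (A_l x)) =
bT 0 (τ1 (A_l x))`, so by `bT_eq_bT0` the `V_1`-part of `τ1 x` vanishes and `τ1` commutes with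
`Mb.dec 1`, `Mb.dec 2` on `(Mb_tot^N)^d`; for fixed `i, i'` the block of `τ1` from copy `i` to copy
`i'` is `diag f_(i,i')`, `f_(i,i') : QHom Mb Mb` (`decodeQ`), and the relation for `jQ mb` gives
`f_(i,i') = 0` for `i ≠ i'` and `f_(i,i).tot (toMb.tot m) = toMb.tot (Φ m)` for all `i`.
So `Φ m` has component `v` given by `f` for `v = 1,2,3,4`; for `m = in0 m_0` the components
`1,2,3,4` of `Φ m` vanish, for `m = in_v m_v` (`v ≥ 1`) the component `0` vanishes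
(`i0_injective`).  `Φ (lam v) = lam (Φ v)` because `i0 (lam v) = (b_0 v, 0, 0)`;
`Φ (al m) = al (Φ m)` because `i0 (al m) = (0,0,(m,0,..,0)) = b_0 (0,(m,0,..,0))`.
So `Φ = γ.tot` with `γ : MM`, `bar γ = f` and `τ = TTp γ`. -/
theorem bicomm (τ : QHom Tp Tp) : ∃ γ : MM, τ = TTp γ := by
  obtain ⟨Φ, H⟩ := exists_rels τ
  obtain ⟨f, hblk, hf⟩ := exists_f τ Φ H
  have cp2_inj : ∀ (i : Fin dd) {x y : Q2}, cp2 i x = cp2 i y → x = y :=
    fun i _ _ h => FM.single_inj h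
  -- components of Φ
  have p0 : ∀ m, toMb0 (M.pr0 (Φ m)) = f.f0 (toMb0 (M.pr0 m)) := fun m =>
    (congrArg Mb.pr0 (hf m)).symm
  have p1 : ∀ m, M.pr1 (Φ m) = f.f1 (M.pr1 m) := fun m => (congrArg Mb.pr1 (hf m)).symm
  have p2 : ∀ m, M.pr2 (Φ m) = f.f2 (M.pr2 m) := fun m => (congrArg Mb.pr2 (hf m)).symm
  have p3 : ∀ m, M.pr3 (Φ m) = f.f3 (M.pr3 m) := fun m => (congrArg Mb.pr3 (hf m)).symm
  have p4 : ∀ m, M.pr4 (Φ m) = f.f4 (M.pr4 m) := fun m => (congrArg Mb.pr4 (hf m)).symm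
  -- the component 0
  let g0 : M0 →ₗ[k] M0 := M.pr0 ∘ₗ Φ ∘ₗ M.in0
  have hg0 : ∀ (i : Fin dd) (x : M0), τ.f2 (cp2 i (i0 x)) = cp2 i (i0 (g0 x)) := fun i x =>
    H.r21 i (M.in0 x)
  -- τ1 on the parts
  have t1a : ∀ (i : Fin dd) (v : V), τ.f1 (cp1 i (FM.mk v 0)) = cp1 i (FM.mk (f.f1 v) 0) := by
    intro i v
    have h := H.r11 i (M.tmk 0 v 0 0 0)
    rw [p1] at h
    exact h
  have t1b : ∀ (i : Fin dd) (x : Mb.P), τ.f1 (cp1 i (FM.mk 0 x)) =
      cp1 i (FM.mk 0 (f.diag x)) := by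
    intro i x
    apply FM.pow_ext
    intro i'
    rw [tau_single, hblk]
    by_cases h : i' = i
    · subst h
      rw [if_pos rfl]
      exact (FM.proj_single_same _ _).symm
    · rw [if_neg h]
      show (FM.mk 0 0 : Q1) = _
      exact (FM.proj_single_ne h (FM.mk (0 : V) (f.diag x) : Q1)).symm
  have t2a : ∀ (i : Fin dd) (m : M2), τ.f2 (cp2 i (Q2.mk m 0 0)) =
      cp2 i (Q2.mk (f.f2 m) 0 0) := by
    intro i m
    have h := H.r20 i (M.tmk 0 0 m 0 0)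
    rw [p2] at h
    exact h
  have bT_cp : ∀ (i : Fin dd) (l : Fin 3) (x : Q1), bT l (cp1 i x) = cp2 i (bQ l x) :=
    fun i l x => FM.pmap_single _ _ _
  have t2c : ∀ (i : Fin dd) (x : Mb.P), τ.f2 (cp2 i (Q2.mk 0 0 x)) =
      cp2 i (Q2.mk 0 0 (f.diag x)) := by
    intro i x
    have h1 : ∀ y : Mb.P, Q2.mk 0 0 y = bQ 0 (FM.mk 0 y) := by
      intro y
      rw [bQ_mk, map_zero]
      rfl
    rw [h1, h1, ← bT_cp, ← bT_cp, ← t1b]
    exact τ.hb 0 _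
  have diag2 : ∀ m : M2, f.diag (m2P m) = m2P (f.f2 m) := by
    intro m
    show FM.pmap f.tot (FM.single 0 (Mb.in2 m)) = FM.single 0 (Mb.in2 (f.f2 m))
    rw [FM.pmap_single, QRep.in2_apply, QHom.tot_tmk, QRep.in2_apply]
    simp only [map_zero]
  have hlam : ∀ x : V, g0 (lamM x) = lamM (f.f1 x) := by
    intro x
    apply i0_injective
    apply cp2_inj 0
    rw [← hg0]
    have h1 : ∀ y : V, i0 (lamM y) = Q2.mk (bM 0 y) 0 0 := by
      intro y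
      rw [lamM_apply, i0_mk, map_zero]
    rw [h1, h1, t2a]
    have h2 : f.f2 (bM 0 x) = bM 0 (f.f1 x) := f.hb 0 x
    rw [h2]
  have hal : ∀ x : M2, g0 (alM x) = alM (f.f2 x) := by
    intro x
    apply i0_injective
    apply cp2_inj 0
    rw [← hg0]
    have h1 : ∀ y : M2, i0 (alM y) = Q2.mk 0 0 (m2P y) := by
      intro y
      rw [alM_apply, i0_mk, map_zero]
    rw [h1, h1, t2c, diag2]
  let γ : MM :=
    { f0 := g0
      f1 := f.f1
      f2 := f.f2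
      f3 := f.f3
      f4 := f.f4
      hb := f.hb
      hr := f.hr
      hlam := hlam
      hal := hal
      ha := f.ha
      hc := f.hc
      hu := f.hu }
  have hbar : bar γ = f := by
    apply QHom.ext
    · ext x
      show toMb0 (M.pr0 (Φ (M.in0 (ofMb0 x)))) = f.f0 x
      rw [p0]
      rfl
    · rfl
    · rfl
    · rfl
    · rfl
  have e4 : τ.f4 = t4 γ := by
    apply FM.hom_pow_ext
    intro i v
    have h := H.r4 i (M.tmk 0 0 0 0 v)
    rw [p4] at h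
    exact h.trans (t4_cp γ i v).symm
  have e1 : τ.f1 = t1 γ := by
    apply FM.hom_pow_ext
    intro i q
    obtain ⟨v, x, rfl⟩ := Q1.cases q
    have h0 : (FM.mk v x : Q1) = FM.mk v 0 + FM.mk 0 x := by simp
    have h1 : τ.f1 (cp1 i (FM.mk v x)) = t1 γ (cp1 i (FM.mk v x)) := by
      rw [h0, map_add, map_add, map_add, t1a, t1b, t1_cp, t1_cp, q1_mk, q1_mk, hbar, map_zero,
        map_zero]
    exact h1
  have e2 : τ.f2 = t2 γ := by
    apply FM.hom_pow_ext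
    intro i q
    obtain ⟨m, c, x, rfl⟩ := Q2.cases q
    have h0 : (Q2.mk m c x : Q2) = Q2.mk m 0 0 + i0 (vM0 c) + Q2.mk 0 0 x := by
      rw [vM0_apply, i0_mk, map_zero, map_zero, Q2.mk_add, Q2.mk_add]
      simp
    have h1 : τ.f2 (cp2 i (Q2.mk m c x)) = t2 γ (cp2 i (Q2.mk m c x)) := by
      rw [t2_cp, q2_mk, h0, map_add, map_add, map_add, map_add, t2a, t2c, hg0, hbar, map_add,
        map_add]
    exact h1
  have e3 : τ.f3 = t3 γ := by
    apply FM.hom_quot_ext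
    intro x
    have h1 : τ.f3 (mkT3 x) = t3 γ (mkT3 x) := by
      rw [mk_liftF, t3_mk, liftF, tF, e1, e2, e4]
    exact h1
  exact ⟨γ, QHom.ext (FM.to_Z_eq _ _) e1 e2 e3 e4⟩

theorem TTp_injective {γ δ : MM} (h : TTp γ = TTp δ) : γ = δ := by
  have h1 : t1 γ = t1 δ := congrArg QHom.f1 h
  have h2 : t2 γ = t2 δ := congrArg QHom.f2 h
  have q1e : ∀ x, q1 γ x = q1 δ x := by
    intro x
    have := LinearMap.congr_fun h1 (cp1 0 x)
    rw [t1_cp, t1_cp] at this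
    exact FM.single_inj this
  have q2e : ∀ x, q2 γ x = q2 δ x := by
    intro x
    have := LinearMap.congr_fun h2 (cp2 0 x)
    rw [t2_cp, t2_cp] at this
    exact FM.single_inj this
  have hbar : bar γ = bar δ := by
    apply diag_inj
    ext x
    have := q1e (FM.mk 0 x)
    rw [q1_mk, q1_mk, Q1.mk_inj] at this
    exact this.2
  apply QHom.ext
  · ext x
    apply i0_injective
    rw [← q2_i0, ← q2_i0, q2e]
  · show (bar γ).f1 = (bar δ).f1
    rw [hbar]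
  · show (bar γ).f2 = (bar δ).f2
    rw [hbar]
  · show (bar γ).f3 = (bar δ).f3
    rw [hbar]
  · show (bar γ).f4 = (bar δ).f4
    rw [hbar]

/-- `End_Q0(T) = MM` because `T_0 = T_1` through `lam` -/
theorem bicommT (τ : QHom T T) : ∃ γ : MM, τ = TT γ := by
  let τ' : QHom Tp Tp :=
    { f0 := 0
      f1 := τ.f1
      f2 := τ.f2
      f3 := τ.f3
      f4 := τ.f4
      hb := τ.hb
      hr := τ.hr
      hlam := fun _ => rfl
      hal := fun _ => rfl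
      ha := τ.ha
      hc := τ.hc
      hu := τ.hu }
  obtain ⟨γ, hγ⟩ := bicomm τ'
  have h1 : τ.f1 = t1 γ := congrArg QHom.f1 hγ
  have h2 : τ.f2 = t2 γ := congrArg QHom.f2 hγ
  have h3 : τ.f3 = t3 γ := congrArg QHom.f3 hγ
  have h4 : τ.f4 = t4 γ := congrArg QHom.f4 hγ
  refine ⟨γ, QHom.ext ?_ h1 h2 h3 h4⟩
  rw [show (TT γ).f0 = t1 γ from rfl, ← h1]
  ext x
  exact τ.hlam x

end QA70
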