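import Pool.Agent.Helper70.QA.Rep

/-!
# Project AUT (S00834), block A: the explicit representations `M`, `Mb`, `QQ`, `T`, `X`, `R`
-/

set_option autoImplicit false

namespace QA70

open Helper10.QA

/-- the generating spaces `V_1 = .. = V_4 = k^4` (`V_0 = k`) -/
abbrev V : FM := FM.pow (Fin 4) FM.K

/-- the space of the free representation at vertex `2`: `V_2 + b_l V_1 + r V_4` -/
abbrev M2 : FM := FM.prod V (FM.prod (FM.pow (Fin 3) V) V)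

/-- the space of the free representation at vertex `3`: `V_3 + a_ij V_1 + c_ij M_2 + u_i V_4` -/
abbrev M3 : FM := FM.prod V (FM.prod (FM.pow (Fin dd × Fin 2) V)
  (FM.prod (FM.pow (Fin dd × Fin 2) M2) (FM.pow (Fin dd) V)))

/-- elements of `M_2` -/
abbrev M2.mk (v : V) (w : FM.pow (Fin 3) V) (t : V) : M2 := FM.mk v (FM.mk w t)

/-- elements of `M_3` -/
abbrev M3.mk (v : V) (x : FM.pow (Fin dd × Fin 2) V) (y : FM.pow (Fin dd × Fin 2) M2)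
    (z : FM.pow (Fin dd) V) : M3 := FM.mk v (FM.mk x (FM.mk y z))

/-- `b_l : V_1 → M_2` -/
def bM (l : Fin 3) : V →ₗ[k] M2 := FM.inr ∘ₗ FM.inl ∘ₗ FM.single l

/-- `r : V_4 → M_2` -/
def rM : V →ₗ[k] M2 := FM.inr ∘ₗ FM.inr

/-- `V_2 → M_2` -/
def vM2 : V →ₗ[k] M2 := FM.inl

/-- `V_3 → M_3` -/
def vM3 : V →ₗ[k] M3 := FM.inl

/-- `a_ij : V_1 → M_3` -/
def aM (i : Fin dd) (j : Fin 2) : V →ₗ[k] M3 := FM.inr ∘ₗ FM.inl ∘ₗ FM.single (i, j)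

/-- `c_ij : M_2 → M_3` -/
def cM (i : Fin dd) (j : Fin 2) : M2 →ₗ[k] M3 := FM.inr ∘ₗ FM.inr ∘ₗ FM.inl ∘ₗ FM.single (i, j)

/-- `u_i : V_4 → M_3` -/
def uM (i : Fin dd) : V →ₗ[k] M3 := FM.inr ∘ₗ FM.inr ∘ₗ FM.inr ∘ₗ FM.single i

theorem vM2_apply (v : V) : vM2 v = M2.mk v 0 0 := rfl
theorem bM_apply (l : Fin 3) (v : V) : bM l v = M2.mk 0 (FM.single l v) 0 := rfl
theorem rM_apply (v : V) : rM v = M2.mk 0 0 v := rfl
theorem vM3_apply (v : V) : vM3 v = M3.mk v 0 0 0 := rfl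
theorem aM_apply (i : Fin dd) (j : Fin 2) (v : V) :
    aM i j v = M3.mk 0 (FM.single (i, j) v) 0 0 := rfl
theorem cM_apply (i : Fin dd) (j : Fin 2) (m : M2) :
    cM i j m = M3.mk 0 0 (FM.single (i, j) m) 0 := rfl
theorem uM_apply (i : Fin dd) (v : V) : uM i v = M3.mk 0 0 0 (FM.single i v) := rfl

/-- the space of the free representation at vertex `0`: `V_0 + lam V_1 + al M_2` -/
abbrev M0 : FM := FM.prod FM.K (FM.prod V M2)

/-- elements of `M_0` -/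
abbrev M0.mk (c : FM.K) (v : V) (m : M2) : M0 := FM.mk c (FM.mk v m)

/-- `V_0 → M_0` -/
def vM0 : FM.K →ₗ[k] M0 := FM.inl
/-- `lam : V_1 → M_0` -/
def lamM : V →ₗ[k] M0 := FM.inr ∘ₗ FM.inl
/-- `al : M_2 → M_0` -/
def alM : M2 →ₗ[k] M0 := FM.inr ∘ₗ FM.inr

theorem vM0_apply (c : FM.K) : vM0 c = M0.mk c 0 0 := rfl
theorem lamM_apply (v : V) : lamM v = M0.mk 0 v 0 := rfl
theorem alM_apply (m : M2) : alM m = M0.mk 0 0 m := rfl

/-- `Mb_0 = V_0 + lam V_1` -/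
abbrev Mb0 : FM := FM.prod FM.K V

/-- the free representation `M` on `V_0, .., V_4` -/
@[reducible] def M : QRep where
  U0 := M0
  U1 := V
  U2 := M2
  U3 := M3
  U4 := V
  b := bM
  r := rM
  lam := lamM
  al := alM
  a := aM
  c := cM
  u := uM

/-- `Mb = M / al M_2` -/
@[reducible] def Mb : QRep where
  U0 := Mb0
  U1 := V
  U2 := M2
  U3 := M3
  U4 := V
  b := bM
  r := rM
  lam := FM.inr
  al := 0
  a := aM
  c := cM
  u := uM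

/-- the endomorphism ring of `M` -/
abbrev MM : Type := QHom M M

/-- the projection `M_0 → Mb_0` -/
def toMb0 : M0 →ₗ[k] Mb0 := FM.map LinearMap.id FM.fst

/-- the inclusion `Mb_0 → M_0` -/
def ofMb0 : Mb0 →ₗ[k] M0 := FM.map LinearMap.id FM.inl

@[simp] theorem toMb0_mk (c : FM.K) (v : V) (m : M2) :
    toMb0 (M0.mk c v m) = FM.mk c v := rfl
@[simp] theorem ofMb0_mk (c : FM.K) (v : V) : ofMb0 (FM.mk c v) = M0.mk c v 0 := rfl

/-- the projection `M → Mb` -/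
def toMb : QHom M Mb where
  f0 := toMb0
  f1 := LinearMap.id
  f2 := LinearMap.id
  f3 := LinearMap.id
  f4 := LinearMap.id
  hb := by intros; rfl
  hr := by intros; rfl
  hlam := by intros; rfl
  hal := by intros; rfl
  ha := by intros; rfl
  hc := by intros; rfl
  hu := by intros; rfl

/-- the action of `MM` on `Mb` -/
def bar (γ : MM) : QHom Mb Mb where
  f0 := toMb0 ∘ₗ γ.f0 ∘ₗ ofMb0
  f1 := γ.f1
  f2 := γ.f2
  f3 := γ.f3
  f4 := γ.f4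
  hb := γ.hb
  hr := γ.hr
  hlam := by
    intro x
    exact congrArg toMb0 (γ.hlam x)
  hal := by
    intro x
    show toMb0 (γ.f0 (ofMb0 0)) = 0
    rw [map_zero, map_zero, map_zero]
  ha := γ.ha
  hc := γ.hc
  hu := γ.hu

/-- the space `QQ_1 = V_1 + Mb_tot^N` -/
abbrev Q1 : FM := FM.prod V Mb.P

/-- the space `QQ_2 = M_2 + V_0 + Mb_tot^N` -/
abbrev Q2 : FM := FM.prod M2 (FM.prod FM.K Mb.P)

/-- elements of `QQ_2` -/
abbrev Q2.mk (m : M2) (c : FM.K) (x : Mb.P) : Q2 := FM.mk m (FM.mk c x)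

/-- `b_l (v, x) = (b_l v, 0, A_l x)` -/
noncomputable def bQ (l : Fin 3) : Q1 →ₗ[k] Q2 := FM.map (bM l) (FM.inr ∘ₗ Mb.dec l)

/-- `r v = (r v, 0, 0)` -/
def rQ : V →ₗ[k] Q2 := FM.inl ∘ₗ rM

@[simp] theorem bQ_mk (l : Fin 3) (v : V) (x : Mb.P) :
    bQ l (FM.mk v x) = Q2.mk (bM l v) 0 (Mb.dec l x) := rfl
@[simp] theorem rQ_apply (v : V) : rQ v = Q2.mk (rM v) 0 0 := rfl

/-- `M_2 → Mb_tot^N`, `m ↦ (m,0,..,0)` -/
noncomputable def m2P : M2 →ₗ[k] Mb.P := FM.single (0 : QRep.NC) ∘ₗ Mb.in2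

/-- the embedding `M_0 → QQ_2`, `(c, v, m) ↦ (b_0 v, c, (m,0,..,0))` -/
noncomputable def i0 : M0 →ₗ[k] Q2 :=
  FM.lift (bM 0 ∘ₗ FM.fst ∘ₗ FM.snd) (FM.lift FM.fst (m2P ∘ₗ FM.snd ∘ₗ FM.snd))

@[simp] theorem i0_mk (c : FM.K) (v : V) (m : M2) :
    i0 (M0.mk c v m) = Q2.mk (bM 0 v) c (m2P m) := rfl

/-- the action of `MM` on `QQ_1` -/
def q1 (γ : MM) : Q1 →ₗ[k] Q1 := FM.map γ.f1 (bar γ).diag

/-- the action of `MM` on `QQ_2`; on `V_0` it is `c ↦ i0 (γ (c,0,0))` -/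
noncomputable def q2 (γ : MM) : Q2 →ₗ[k] Q2 :=
  FM.inl ∘ₗ γ.f2 ∘ₗ FM.fst +
  i0 ∘ₗ γ.f0 ∘ₗ vM0 ∘ₗ FM.fst ∘ₗ FM.snd +
  FM.inr ∘ₗ FM.inr ∘ₗ (bar γ).diag ∘ₗ FM.snd ∘ₗ FM.snd

@[simp] theorem q1_mk (γ : MM) (v : V) (x : Mb.P) :
    q1 γ (FM.mk v x) = FM.mk (γ.f1 v) ((bar γ).diag x) := rfl

theorem q2_mk (γ : MM) (m : M2) (c : FM.K) (x : Mb.P) :
    q2 γ (Q2.mk m c x) =
      Q2.mk (γ.f2 m) 0 0 + i0 (γ.f0 (vM0 c)) + Q2.mk 0 0 ((bar γ).diag x) := rfl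

/-- the representation `QQ` of the quiver with vertices `1, 2, 4` -/
@[reducible] noncomputable def QQ : QRep where
  U0 := FM.Z
  U1 := Q1
  U2 := Q2
  U3 := FM.Z
  U4 := V
  b := bQ
  r := rQ
  lam := 0
  al := 0
  a := 0
  c := 0
  u := 0

/-- `d` copies of a space -/
abbrev FM.cps (A : FM) : FM := FM.pow (Fin dd) A

/-- `T_1 = QQ_1^d` -/
abbrev T1 : FM := FM.pow (Fin dd) Q1
/-- `T_2 = QQ_2^d` -/
abbrev T2 : FM := FM.pow (Fin dd) Q2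
/-- `T_4 = QQ_4^d` -/
abbrev T4 : FM := FM.pow (Fin dd) V

/-- the free space `sum u_i T_4 + a_ij T_1 + c_ij T_2` over `T_3` -/
abbrev F3 : FM := FM.prod (FM.pow (Fin dd) T4)
  (FM.prod (FM.pow (Fin dd × Fin 2) T1) (FM.pow (Fin dd × Fin 2) T2))

/-- elements of `F_3` -/
abbrev F3.mk (x : FM.pow (Fin dd) T4) (y : FM.pow (Fin dd × Fin 2) T1)
    (z : FM.pow (Fin dd × Fin 2) T2) : F3 := FM.mk x (FM.mk y z)

/-- the `i`-th of the `d` copies -/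
def cp1 (i : Fin dd) : Q1 →ₗ[k] T1 := FM.single i
/-- the `i`-th of the `d` copies -/
def cp2 (i : Fin dd) : Q2 →ₗ[k] T2 := FM.single i
/-- the `i`-th of the `d` copies -/
def cp4 (i : Fin dd) : V →ₗ[k] T4 := FM.single i

/-- `Mb_tot → QQ_1`, `m ↦ (0, (m,0,..,0))` -/
noncomputable def jQ : Mb.tot →ₗ[k] Q1 := FM.inr ∘ₗ FM.single (0 : QRep.NC)

/-- the relation `u(m)`: components
`u_i : m_4`, `a_i0 : (0,(mb,0,..))`, `a_i1 : (m_1,0)`, `c_i0 : [m_2,0,0]`, `c_i1 : i0 m_0`,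
each in copy `i` -/
noncomputable def uu : M.tot →ₗ[k] F3 :=
  FM.lift (FM.pi fun i => cp4 i ∘ₗ M.pr4)
    (FM.lift
      (FM.pi fun ij => cp1 ij.1 ∘ₗ
        (if ij.2 = 0 then jQ ∘ₗ toMb.tot else FM.inl ∘ₗ M.pr1))
      (FM.pi fun ij => cp2 ij.1 ∘ₗ
        (if ij.2 = 0 then FM.inl ∘ₗ M.pr2 else i0 ∘ₗ M.pr0)))

/-- `T_3 = F_3 / u(M_tot)` -/
noncomputable abbrev T3 : FM := FM.quot F3 (LinearMap.range uu)

/-- the quotient map -/
noncomputable def mkT3 : F3 →ₗ[k] T3 := FM.mkq (LinearMap.range uu)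

/-- `b_l` on `d` copies -/
noncomputable def bT (l : Fin 3) : T1 →ₗ[k] T2 := FM.pmap (bQ l)

/-- `r` on `d` copies -/
def rT : T4 →ₗ[k] T2 := FM.pmap rQ

/-- `a_ij : T_1 → F_3` -/
def aF (i : Fin dd) (j : Fin 2) : T1 →ₗ[k] F3 := FM.inr ∘ₗ FM.inl ∘ₗ FM.single (i, j)

/-- `c_ij : T_2 → F_3` -/
def cF (i : Fin dd) (j : Fin 2) : T2 →ₗ[k] F3 := FM.inr ∘ₗ FM.inr ∘ₗ FM.single (i, j)

/-- `u_i : T_4 → F_3` -/
def uF (i : Fin dd) : T4 →ₗ[k] F3 := FM.inl ∘ₗ FM.single i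

theorem aF_apply (i : Fin dd) (j : Fin 2) (x : T1) :
    aF i j x = F3.mk 0 (FM.single (i, j) x) 0 := rfl
theorem cF_apply (i : Fin dd) (j : Fin 2) (x : T2) :
    cF i j x = F3.mk 0 0 (FM.single (i, j) x) := rfl
theorem uF_apply (i : Fin dd) (x : T4) : uF i x = F3.mk (FM.single i x) 0 0 := rfl

/-- the representation `T` without vertex `0` -/
@[reducible] noncomputable def Tp : QRep where
  U0 := FM.Z
  U1 := T1
  U2 := T2
  U3 := T3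
  U4 := T4
  b := bT
  r := rT
  lam := 0
  al := 0
  a := fun i j => mkT3 ∘ₗ aF i j
  c := fun i j => mkT3 ∘ₗ cF i j
  u := fun i => mkT3 ∘ₗ uF i

/-- the representation `T`: `T_0 = T_1`, `lam = id`, `al = 0` -/
@[reducible] noncomputable def T : QRep where
  U0 := T1
  U1 := T1
  U2 := T2
  U3 := T3
  U4 := T4
  b := bT
  r := rT
  lam := LinearMap.id
  al := 0
  a := fun i j => mkT3 ∘ₗ aF i j
  c := fun i j => mkT3 ∘ₗ cF i j
  u := fun i => mkT3 ∘ₗ uF i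

/-- the action of `MM` on `T_1` -/
def t1 (γ : MM) : T1 →ₗ[k] T1 := FM.pmap (q1 γ)
/-- the action of `MM` on `T_2` -/
noncomputable def t2 (γ : MM) : T2 →ₗ[k] T2 := FM.pmap (q2 γ)
/-- the action of `MM` on `T_4` -/
def t4 (γ : MM) : T4 →ₗ[k] T4 := FM.pmap γ.f4
/-- the action of `MM` on `F_3` -/
noncomputable def tF (γ : MM) : F3 →ₗ[k] F3 :=
  FM.map (FM.pmap (t4 γ)) (FM.map (FM.pmap (t1 γ)) (FM.pmap (t2 γ)))

/-- `X_1 = X_2 = T_tot^N` -/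
noncomputable abbrev X1 : FM := T.P

/-- `T_2 → X_1`, `q ↦ (q,0,..,0)` -/
noncomputable def j2 : T2 →ₗ[k] X1 := FM.single (0 : QRep.NC) ∘ₗ T.in2

/-- a basis vector of `V = k^4` -/
def eV (i : Fin 4) : V := FM.single i (FM.ofK 1)

/-- the vector `g` of `T_tot^N`: its entries are `(0,(v,0,..,0))^(0)` in `T_1`, `v` in a basis of
`V_1, V_2, V_3, V_4` (entries `0 .. 15`), and `[0,v_0,0]^(0)` in `T_2` (entry `16`) -/
noncomputable def gX : X1 := FM.ofFun (A := T.tot) fun s : QRep.NC =>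
  if h : s.val < 4 then T.in1 (cp1 0 (jQ (Mb.in1 (eV ⟨s.val, h⟩))))
  else if h : s.val - 4 < 4 then T.in1 (cp1 0 (jQ (Mb.in2 (vM2 (eV ⟨s.val - 4, h⟩)))))
  else if h : s.val - 8 < 4 then T.in1 (cp1 0 (jQ (Mb.in3 (vM3 (eV ⟨s.val - 8, h⟩)))))
  else if h : s.val - 12 < 4 then T.in1 (cp1 0 (jQ (Mb.in4 (eV ⟨s.val - 12, h⟩))))
  else if s.val = 16 then T.in2 (cp2 0 (Q2.mk 0 (FM.ofK 1) 0))
  else 0

theorem proj_gX (s : QRep.NC) : FM.proj s gX =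
    if h : s.val < 4 then T.in1 (cp1 0 (jQ (Mb.in1 (eV ⟨s.val, h⟩))))
    else if h : s.val - 4 < 4 then T.in1 (cp1 0 (jQ (Mb.in2 (vM2 (eV ⟨s.val - 4, h⟩)))))
    else if h : s.val - 8 < 4 then T.in1 (cp1 0 (jQ (Mb.in3 (vM3 (eV ⟨s.val - 8, h⟩)))))
    else if h : s.val - 12 < 4 then T.in1 (cp1 0 (jQ (Mb.in4 (eV ⟨s.val - 12, h⟩))))
    else if s.val = 16 then T.in2 (cp2 0 (Q2.mk 0 (FM.ofK 1) 0))
    else 0 := rfl


/-- `r : X_4 = k → X_2`, `1 ↦ g` -/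
noncomputable def rX : FM.K →ₗ[k] X1 := (LinearMap.toSpanSingleton k X1 gX) ∘ₗ FM.toK

/-- the representation `X` (vertices `1, 2, 4`) -/
@[reducible] noncomputable def X : QRep where
  U0 := FM.Z
  U1 := X1
  U2 := X1
  U3 := FM.Z
  U4 := FM.K
  b := T.dec
  r := rX
  lam := 0
  al := 0
  a := 0
  c := 0
  u := 0

/-- `R_1 = X_1 + T_1` -/
noncomputable abbrev R1 : FM := FM.prod X1 T1
/-- `R_2 = X_2 + T_2` -/
noncomputable abbrev R2 : FM := FM.prod X1 T2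
/-- `R_4 = X_4 + T_4` -/
noncomputable abbrev R4 : FM := FM.prod FM.K T4

/-- `b_l` on `R` -/
noncomputable def bR (l : Fin 3) : R1 →ₗ[k] R2 := FM.map (T.dec l) (bT l)
/-- `r` on `R` -/
noncomputable def rR : R4 →ₗ[k] R2 := FM.map rX rT
/-- `al (x,q) = ((q,0,..,0),0)` -/
noncomputable def alR : R2 →ₗ[k] R1 := FM.inl ∘ₗ j2 ∘ₗ FM.snd

/-- the representation `R`: `R_0 = R_1`, `lam = id` -/
@[reducible] noncomputable def R : QRep where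
  U0 := R1
  U1 := R1
  U2 := R2
  U3 := T3
  U4 := R4
  b := bR
  r := rR
  lam := LinearMap.id
  al := alR
  a := fun i j => mkT3 ∘ₗ aF i j ∘ₗ FM.snd
  c := fun i j => mkT3 ∘ₗ cF i j ∘ₗ FM.snd
  u := fun i => mkT3 ∘ₗ uF i ∘ₗ FM.snd

/-- `R` without vertex `0` -/
@[reducible] noncomputable def Rp : QRep where
  U0 := FM.Z
  U1 := R1
  U2 := R2
  U3 := T3
  U4 := R4
  b := bR
  r := rR
  lam := 0
  al := 0
  a := fun i j => mkT3 ∘ₗ aF i j ∘ₗ FM.snd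
  c := fun i j => mkT3 ∘ₗ cF i j ∘ₗ FM.snd
  u := fun i => mkT3 ∘ₗ uF i ∘ₗ FM.snd

/-- `M` without vertex `0` -/
@[reducible] def Mp : QRep where
  U0 := FM.Z
  U1 := V
  U2 := M2
  U3 := M3
  U4 := V
  b := bM
  r := rM
  lam := 0
  al := 0
  a := aM
  c := cM
  u := uM

/-- the module `W = Hom_Q(M, R)` -/
abbrev W : Type := QHom M R
/-- the module `W/E = Hom_Qp(Mp, Rp)` -/
abbrev Wp : Type := QHom Mp Rp
/-- the ring `BB = End_Qp(Rp)` -/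
abbrev BB : Type := QHom Rp Rp
/-- the ring `A0 = End_Q(R)` (identified with `k + J` below) -/
abbrev AA : Type := QHom R R
/-- `J = W^d` -/
abbrev J : Type := Fin dd → W
/-- the group `O = Aut_Q(M)` -/
abbrev OO : Type := MMˣ
/-- `E = R_0 = R_1` -/
abbrev EE : Type := R1

end QA70
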