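import Mathlib

/-!
# Project AUT (S00834), block A: bundled finite `F_2`-modules

`FM` is the type of bundled finite modules over `k = ZMod 2`.  Products, powers and quotients are
opaque constructions (`FM.prod`, `FM.pow`, `FM.quot`): use only the API below
(`mk`, `fst`, `snd`, `proj`, `single`, `pi`, `pmap`, `mkq`, ...), so that instance search is trivial.
-/

set_option autoImplicit false

namespace QA70

/-- the field `F_2` -/
abbrev k : Type := ZMod 2

/-- bundled finite `F_2`-modules -/
structure FM where bundle ::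
  carrier : Type
  [ac : AddCommGroup carrier]
  [md : Module k carrier]
  [fn : Finite carrier]

instance : CoeSort FM Type := ⟨FM.carrier⟩
attribute [instance] FM.ac FM.md FM.fn

instance finLin (A B : Type) [AddCommGroup A] [Module k A] [Finite A] [AddCommGroup B]
    [Module k B] [Finite B] : Finite (A →ₗ[k] B) :=
  Finite.of_injective (fun f : A →ₗ[k] B => (f : A → B)) DFunLike.coe_injective

namespace FM

/-- the one-dimensional space -/
def K : FM := ⟨k⟩
/-- the zero space -/
def Z : FM := ⟨PUnit⟩

/-- the identification of `K` with `k` -/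
def toK : K →ₗ[k] k := LinearMap.id
/-- the identification of `k` with `K` -/
def ofK : k →ₗ[k] K := LinearMap.id
@[simp] theorem toK_ofK (c : k) : toK (ofK c) = c := rfl
@[simp] theorem ofK_toK (c : K) : ofK (toK c) = c := rfl

theorem Z_eq (x y : Z) : x = y := Subsingleton.elim (α := PUnit) x y
theorem to_Z_eq {A : FM} (f g : A →ₗ[k] Z) : f = g := LinearMap.ext fun _ => Z_eq _ _
theorem of_Z_eq {A : FM} (f g : Z →ₗ[k] A) : f = g := by
  ext x
  rw [Z_eq x 0, map_zero, map_zero]

variable {A B C D A' B' : FM} {ι : Type} [Finite ι]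

/-- binary products -/
def prod (A B : FM) : FM := ⟨A × B⟩

/-- pairs -/
def mk (a : A) (b : B) : prod A B := (a, b)
/-- first projection -/
def fst : prod A B →ₗ[k] A := LinearMap.fst k A B
/-- second projection -/
def snd : prod A B →ₗ[k] B := LinearMap.snd k A B
/-- first inclusion -/
def inl : A →ₗ[k] prod A B := LinearMap.inl k A B
/-- second inclusion -/
def inr : B →ₗ[k] prod A B := LinearMap.inr k A B
/-- the map into a product -/
def lift (f : C →ₗ[k] A) (g : C →ₗ[k] B) : C →ₗ[k] prod A B := LinearMap.prod f g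
/-- the product of two maps -/
def map (f : A →ₗ[k] A') (g : B →ₗ[k] B') : prod A B →ₗ[k] prod A' B' :=
  LinearMap.prodMap f g

@[simp] theorem fst_mk (a : A) (b : B) : fst (mk a b) = a := rfl
@[simp] theorem snd_mk (a : A) (b : B) : snd (mk a b) = b := rfl
@[simp] theorem mk_eta (x : prod A B) : mk (fst x) (snd x) = x := rfl
@[simp] theorem inl_apply (a : A) : (inl a : prod A B) = mk a 0 := rfl
@[simp] theorem inr_apply (b : B) : (inr b : prod A B) = mk 0 b := rfl
@[simp] theorem lift_apply (f : C →ₗ[k] A) (g : C →ₗ[k] B) (x : C) :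
    lift f g x = mk (f x) (g x) := rfl
@[simp] theorem map_apply (f : A →ₗ[k] A') (g : B →ₗ[k] B') (x : prod A B) :
    map f g x = mk (f (fst x)) (g (snd x)) := rfl
@[simp] theorem mk_add_mk (a a' : A) (b b' : B) :
    mk a b + mk a' b' = mk (a + a') (b + b') := rfl
@[simp] theorem mk_sub_mk (a a' : A) (b b' : B) :
    mk a b - mk a' b' = mk (a - a') (b - b') := rfl
@[simp] theorem neg_mk (a : A) (b : B) : -(mk a b) = mk (-a) (-b) := rfl
@[simp] theorem smul_mk (t : k) (a : A) (b : B) : t • mk a b = mk (t • a) (t • b) := rfl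
@[simp] theorem mk_zero_zero : (mk 0 0 : prod A B) = 0 := rfl
theorem zero_eq_mk : (0 : prod A B) = mk 0 0 := rfl
@[simp] theorem mk_inj {a a' : A} {b b' : B} : mk a b = mk a' b' ↔ a = a' ∧ b = b' :=
  Prod.mk_inj
@[simp] theorem mk_eq_zero {a : A} {b : B} : mk a b = 0 ↔ a = 0 ∧ b = 0 := by
  rw [zero_eq_mk, mk_inj]

theorem prod_ext {x y : prod A B} (h1 : fst x = fst y) (h2 : snd x = snd y) : x = y :=
  Prod.ext h1 h2

theorem prod_cases (x : prod A B) : ∃ a b, x = mk a b := ⟨fst x, snd x, rfl⟩

/-- linear maps out of a product agree if they agree on both factors -/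
theorem hom_prod_ext {f g : prod A B →ₗ[k] C} (h1 : ∀ a, f (mk a 0) = g (mk a 0))
    (h2 : ∀ b, f (mk 0 b) = g (mk 0 b)) : f = g := by
  ext x
  obtain ⟨a, b, rfl⟩ := prod_cases x
  have : mk a b = mk a 0 + mk 0 b := by simp
  rw [this, map_add, map_add, h1, h2]

/-- powers -/
def pow (ι : Type) [Finite ι] (A : FM) : FM := ⟨ι → A⟩

/-- elements of a power -/
def ofFun (x : ι → A) : pow ι A := x
/-- coordinates -/
def proj (i : ι) : pow ι A →ₗ[k] A := LinearMap.proj i
/-- inclusion of the `i`-th coordinate -/
def single [DecidableEq ι] (i : ι) : A →ₗ[k] pow ι A := LinearMap.single k (fun _ : ι => (A : Type)) i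
/-- map into a power -/
def pi (f : ι → (C →ₗ[k] A)) : C →ₗ[k] pow ι A := LinearMap.pi f
/-- a power of a map -/
def pmap (f : A →ₗ[k] B) : pow ι A →ₗ[k] pow ι B := LinearMap.pi fun i => f ∘ₗ LinearMap.proj i

@[simp] theorem proj_ofFun (x : ι → A) (i : ι) : proj i (ofFun x) = x i := rfl
@[simp] theorem ofFun_proj (x : pow ι A) : ofFun (fun i => proj i x) = x := rfl
@[simp] theorem proj_pi (f : ι → (C →ₗ[k] A)) (x : C) (i : ι) : proj i (pi f x) = f i x := rfl
@[simp] theorem proj_pmap (f : A →ₗ[k] B) (x : pow ι A) (i : ι) :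
    proj i (pmap f x) = f (proj i x) := rfl
@[simp] theorem proj_single_same [DecidableEq ι] (i : ι) (a : A) : proj i (single i a) = a :=
  Pi.single_eq_same (M := fun _ : ι => (A : Type)) i a
theorem proj_single_ne [DecidableEq ι] {i j : ι} (h : j ≠ i) (a : A) :
    proj j (single i a) = 0 := Pi.single_eq_of_ne (M := fun _ : ι => (A : Type)) h a
theorem proj_single [DecidableEq ι] (i j : ι) (a : A) :
    proj j (single i a) = if j = i then a else 0 := by
  by_cases h : j = i
  · subst h; simp
  · rw [if_neg h, proj_single_ne h]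

theorem pow_ext {x y : pow ι A} (h : ∀ i, proj i x = proj i y) : x = y := funext h

theorem single_inj [DecidableEq ι] {i : ι} {a a' : A} (h : single i a = single i a') : a = a' := by
  have := congrArg (proj i) h
  simpa using this

theorem single_eq_zero [DecidableEq ι] {i : ι} {a : A} : single i a = 0 ↔ a = 0 := by
  constructor
  · intro h
    have := congrArg (proj i) h
    simpa using this
  · rintro rfl; simp

theorem sum_single [Fintype ι] [DecidableEq ι] (x : pow ι A) :
    ∑ i, single i (proj i x) = x := by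
  apply pow_ext
  intro j
  rw [map_sum, Finset.sum_eq_single j]
  · simp
  · intro i _ h; exact proj_single_ne h.symm _
  · simp

/-- linear maps out of a power agree if they agree on the coordinate inclusions -/
theorem hom_pow_ext [Fintype ι] [DecidableEq ι] {f g : pow ι A →ₗ[k] B}
    (h : ∀ i a, f (single i a) = g (single i a)) : f = g := by
  ext x
  rw [← sum_single x, map_sum, map_sum]
  exact Finset.sum_congr rfl fun i _ => h i _

theorem pmap_single [DecidableEq ι] (f : A →ₗ[k] B) (i : ι) (a : A) :
    pmap f (single i a) = single i (f a) := by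
  apply pow_ext
  intro j
  rw [proj_pmap, proj_single, proj_single]
  split_ifs <;> simp

@[simp] theorem pmap_id : pmap (ι := ι) (LinearMap.id : A →ₗ[k] A) = LinearMap.id := rfl
theorem pmap_comp (g : B →ₗ[k] C) (f : A →ₗ[k] B) :
    pmap (ι := ι) (g ∘ₗ f) = pmap g ∘ₗ pmap f := rfl

/-- quotients -/
def quot (A : FM) (S : Submodule k A) : FM :=
  { carrier := A ⧸ S, fn := Finite.of_surjective _ (Submodule.mkQ_surjective S) }

variable {S : Submodule k A}

/-- the quotient map -/
def mkq (S : Submodule k A) : A →ₗ[k] quot A S := S.mkQ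

theorem mkq_surjective : Function.Surjective (mkq S) := Submodule.mkQ_surjective S

theorem mkq_eq_zero {x : A} : mkq S x = 0 ↔ x ∈ S := Submodule.Quotient.mk_eq_zero S

theorem mkq_eq {x y : A} : mkq S x = mkq S y ↔ x - y ∈ S := Submodule.Quotient.eq S

/-- maps out of a quotient -/
def qlift (f : A →ₗ[k] B) (h : ∀ x ∈ S, f x = 0) : quot A S →ₗ[k] B :=
  S.liftQ f (fun x hx => h x hx)

@[simp] theorem qlift_mkq (f : A →ₗ[k] B) (h : ∀ x ∈ S, f x = 0) (x : A) :
    qlift f h (mkq S x) = f x := rfl

theorem hom_quot_ext {f g : quot A S →ₗ[k] B} (h : ∀ x, f (mkq S x) = g (mkq S x)) : f = g := by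
  ext x
  obtain ⟨y, rfl⟩ := mkq_surjective x
  exact h y

end FM

end QA70
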