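import Pool.Agent.Helper70.QA.Fun

/-!
# Project AUT (S00834), block A: `M`, `Mb`, `Mp` are free on `V_0, .., V_4`
-/

set_option autoImplicit false

namespace QA70

open Helper10.QA

/-! ### decompositions -/

theorem M2_sum (m : M2) :
    m = vM2 (FM.fst m) + ∑ l : Fin 3, bM l (FM.proj l (FM.fst (FM.snd m))) +
      rM (FM.snd (FM.snd m)) := by
  obtain ⟨v, y, rfl⟩ := FM.prod_cases m
  obtain ⟨w, t, rfl⟩ := FM.prod_cases y
  have h : ∑ l : Fin 3, bM l (FM.proj l w) = M2.mk 0 w 0 := by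
    have h1 : ∀ l : Fin 3, bM l (FM.proj l w) =
        (FM.inr ∘ₗ FM.inl : FM.pow (Fin 3) V →ₗ[k] M2) (FM.single l (FM.proj l w)) :=
      fun _ => rfl
    rw [Finset.sum_congr rfl fun l _ => h1 l, ← map_sum, FM.sum_single]
    rfl
  simp only [FM.fst_mk, FM.snd_mk]
  rw [h, vM2_apply, rM_apply]
  simp

theorem M3_sum (m : M3) :
    m = vM3 (FM.fst m) +
      ∑ ij : Fin dd × Fin 2, aM ij.1 ij.2 (FM.proj ij (FM.fst (FM.snd m))) +
      ∑ ij : Fin dd × Fin 2, cM ij.1 ij.2 (FM.proj ij (FM.fst (FM.snd (FM.snd m)))) +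
      ∑ i : Fin dd, uM i (FM.proj i (FM.snd (FM.snd (FM.snd m)))) := by
  obtain ⟨v, y, rfl⟩ := FM.prod_cases m
  obtain ⟨a, y, rfl⟩ := FM.prod_cases y
  obtain ⟨c, u, rfl⟩ := FM.prod_cases y
  simp only [FM.fst_mk, FM.snd_mk]
  have ha : ∑ ij : Fin dd × Fin 2, aM ij.1 ij.2 (FM.proj ij a) = M3.mk 0 a 0 0 := by
    have h1 : ∀ ij : Fin dd × Fin 2, aM ij.1 ij.2 (FM.proj ij a) =
        (FM.inr ∘ₗ FM.inl : FM.pow (Fin dd × Fin 2) V →ₗ[k] M3) (FM.single ij (FM.proj ij a)) :=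
      fun _ => rfl
    rw [Finset.sum_congr rfl fun l _ => h1 l, ← map_sum, FM.sum_single]
    rfl
  have hc : ∑ ij : Fin dd × Fin 2, cM ij.1 ij.2 (FM.proj ij c) = M3.mk 0 0 c 0 := by
    have h1 : ∀ ij : Fin dd × Fin 2, cM ij.1 ij.2 (FM.proj ij c) =
        (FM.inr ∘ₗ FM.inr ∘ₗ FM.inl : FM.pow (Fin dd × Fin 2) M2 →ₗ[k] M3)
          (FM.single ij (FM.proj ij c)) := fun _ => rfl
    rw [Finset.sum_congr rfl fun l _ => h1 l, ← map_sum, FM.sum_single]
    rfl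
  have hu : ∑ i : Fin dd, uM i (FM.proj i u) = M3.mk 0 0 0 u := by
    have h1 : ∀ i : Fin dd, uM i (FM.proj i u) =
        (FM.inr ∘ₗ FM.inr ∘ₗ FM.inr : FM.pow (Fin dd) V →ₗ[k] M3)
          (FM.single i (FM.proj i u)) := fun _ => rfl
    rw [Finset.sum_congr rfl fun l _ => h1 l, ← map_sum, FM.sum_single]
    rfl
  rw [ha, hc, hu, vM3_apply]
  simp

theorem M0_sum (m : M0) :
    m = vM0 (FM.fst m) + lamM (FM.fst (FM.snd m)) + alM (FM.snd (FM.snd m)) := by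
  obtain ⟨v, y, rfl⟩ := FM.prod_cases m
  obtain ⟨w, t, rfl⟩ := FM.prod_cases y
  simp only [FM.fst_mk, FM.snd_mk]
  rw [vM0_apply, lamM_apply, alM_apply]
  simp

/-- two linear maps on `M_2` agree if they agree on `V_2`, `b_l V_1`, `r V_4` -/
theorem hom_M2_ext {B : FM} {f g : M2 →ₗ[k] B} (h2 : ∀ v, f (vM2 v) = g (vM2 v))
    (hb : ∀ l v, f (bM l v) = g (bM l v)) (hr : ∀ v, f (rM v) = g (rM v)) : f = g := by
  ext m
  rw [M2_sum m]
  simp only [map_add, map_sum, h2, hb, hr]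

theorem hom_M3_ext {B : FM} {f g : M3 →ₗ[k] B} (h3 : ∀ v, f (vM3 v) = g (vM3 v))
    (ha : ∀ i j v, f (aM i j v) = g (aM i j v)) (hc : ∀ i j v, f (cM i j v) = g (cM i j v))
    (hu : ∀ i v, f (uM i v) = g (uM i v)) : f = g := by
  ext m
  rw [M3_sum m]
  simp only [map_add, map_sum, h3, ha, hc, hu]

theorem hom_M0_ext {B : FM} {f g : M0 →ₗ[k] B} (h0 : ∀ v, f (vM0 v) = g (vM0 v))
    (hl : ∀ v, f (lamM v) = g (lamM v)) (ha : ∀ v, f (alM v) = g (alM v)) : f = g := by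
  ext m
  rw [M0_sum m]
  simp only [map_add, h0, hl, ha]

/-! ### free homomorphisms -/

section

variable (B : QRep) (g0 : FM.K →ₗ[k] B.U0) (g1 : V →ₗ[k] B.U1) (g2 : V →ₗ[k] B.U2)
  (g3 : V →ₗ[k] B.U3) (g4 : V →ₗ[k] B.U4)

/-- the component at vertex `2` of the free homomorphism -/
def free2 : M2 →ₗ[k] B.U2 :=
  g2 ∘ₗ FM.fst + (∑ l : Fin 3, B.b l ∘ₗ g1 ∘ₗ FM.proj l) ∘ₗ FM.fst ∘ₗ FM.snd +
    B.r ∘ₗ g4 ∘ₗ FM.snd ∘ₗ FM.snd

theorem free2_v (v : V) : free2 B g1 g2 g4 (vM2 v) = g2 v := by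
  simp [free2, vM2_apply]

theorem free2_b (l : Fin 3) (v : V) : free2 B g1 g2 g4 (bM l v) = B.b l (g1 v) := by
  simp only [free2, bM_apply, LinearMap.add_apply, LinearMap.comp_apply, FM.fst_mk, FM.snd_mk,
    map_zero, LinearMap.sum_apply, zero_add, add_zero]
  rw [Finset.sum_eq_single l]
  · rw [FM.proj_single_same]
  · intro i _ h
    rw [FM.proj_single_ne h, map_zero, map_zero]
  · simp

theorem free2_r (v : V) : free2 B g1 g2 g4 (rM v) = B.r (g4 v) := by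
  simp [free2, rM_apply]

/-- the component at vertex `0` of the free homomorphism -/
def free0 (f2 : M2 →ₗ[k] B.U2) : M0 →ₗ[k] B.U0 :=
  g0 ∘ₗ FM.fst + B.lam ∘ₗ g1 ∘ₗ FM.fst ∘ₗ FM.snd + B.al ∘ₗ f2 ∘ₗ FM.snd ∘ₗ FM.snd

theorem free0_v (f2 : M2 →ₗ[k] B.U2) (c : FM.K) : free0 B g0 g1 f2 (vM0 c) = g0 c := by
  simp [free0, vM0_apply]
theorem free0_lam (f2 : M2 →ₗ[k] B.U2) (v : V) :
    free0 B g0 g1 f2 (lamM v) = B.lam (g1 v) := by
  simp [free0, lamM_apply]
theorem free0_al (f2 : M2 →ₗ[k] B.U2) (m : M2) :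
    free0 B g0 g1 f2 (alM m) = B.al (f2 m) := by
  simp [free0, alM_apply]

/-- the component at vertex `3` of the free homomorphism -/
def free3 (f2 : M2 →ₗ[k] B.U2) : M3 →ₗ[k] B.U3 :=
  g3 ∘ₗ FM.fst +
    (∑ ij : Fin dd × Fin 2, B.a ij.1 ij.2 ∘ₗ g1 ∘ₗ FM.proj ij) ∘ₗ FM.fst ∘ₗ FM.snd +
    (∑ ij : Fin dd × Fin 2, B.c ij.1 ij.2 ∘ₗ f2 ∘ₗ FM.proj ij) ∘ₗ FM.fst ∘ₗ FM.snd ∘ₗ FM.snd +
    (∑ i : Fin dd, B.u i ∘ₗ g4 ∘ₗ FM.proj i) ∘ₗ FM.snd ∘ₗ FM.snd ∘ₗ FM.snd

theorem free3_v (f2 : M2 →ₗ[k] B.U2) (v : V) : free3 B g1 g3 g4 f2 (vM3 v) = g3 v := by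
  simp [free3, vM3_apply]

theorem free3_a (f2 : M2 →ₗ[k] B.U2) (i : Fin dd) (j : Fin 2) (v : V) :
    free3 B g1 g3 g4 f2 (aM i j v) = B.a i j (g1 v) := by
  simp only [free3, aM_apply, LinearMap.add_apply, LinearMap.comp_apply, FM.fst_mk, FM.snd_mk,
    map_zero, LinearMap.sum_apply, zero_add, add_zero]
  rw [Finset.sum_eq_single (i, j)]
  · rw [FM.proj_single_same]
  · intro i _ h
    rw [FM.proj_single_ne h, map_zero, map_zero]
  · simp

theorem free3_c (f2 : M2 →ₗ[k] B.U2) (i : Fin dd) (j : Fin 2) (m : M2) :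
    free3 B g1 g3 g4 f2 (cM i j m) = B.c i j (f2 m) := by
  simp only [free3, cM_apply, LinearMap.add_apply, LinearMap.comp_apply, FM.fst_mk, FM.snd_mk,
    map_zero, LinearMap.sum_apply, zero_add, add_zero]
  rw [Finset.sum_eq_single (i, j)]
  · rw [FM.proj_single_same]
  · intro i _ h
    rw [FM.proj_single_ne h, map_zero, map_zero]
  · simp

theorem free3_u (f2 : M2 →ₗ[k] B.U2) (i : Fin dd) (v : V) :
    free3 B g1 g3 g4 f2 (uM i v) = B.u i (g4 v) := by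
  simp only [free3, uM_apply, LinearMap.add_apply, LinearMap.comp_apply, FM.fst_mk, FM.snd_mk,
    map_zero, LinearMap.sum_apply, zero_add, add_zero]
  rw [Finset.sum_eq_single i]
  · rw [FM.proj_single_same]
  · intro i _ h
    rw [FM.proj_single_ne h, map_zero, map_zero]
  · simp

attribute [irreducible] free2 free0 free3

/-- the free homomorphism `M → B` -/
def ofM : QHom M B where
  f0 := free0 B g0 g1 (free2 B g1 g2 g4)
  f1 := g1
  f2 := free2 B g1 g2 g4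
  f3 := free3 B g1 g3 g4 (free2 B g1 g2 g4)
  f4 := g4
  hb := fun l x => free2_b B g1 g2 g4 l x
  hr := fun x => free2_r B g1 g2 g4 x
  hlam := fun x => free0_lam B g0 g1 (free2 B g1 g2 g4) x
  hal := fun x => free0_al B g0 g1 (free2 B g1 g2 g4) x
  ha := fun i j x => free3_a B g1 g3 g4 (free2 B g1 g2 g4) i j x
  hc := fun i j x => free3_c B g1 g3 g4 (free2 B g1 g2 g4) i j x
  hu := fun i x => free3_u B g1 g3 g4 (free2 B g1 g2 g4) i x

@[simp] theorem ofM_f1 : (ofM B g0 g1 g2 g3 g4).f1 = g1 := rfl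
@[simp] theorem ofM_f4 : (ofM B g0 g1 g2 g3 g4).f4 = g4 := rfl
@[simp] theorem ofM_f0_v (c : FM.K) : (ofM B g0 g1 g2 g3 g4).f0 (vM0 c) = g0 c :=
  free0_v B g0 g1 (free2 B g1 g2 g4) c
@[simp] theorem ofM_f2_v (v : V) : (ofM B g0 g1 g2 g3 g4).f2 (vM2 v) = g2 v :=
  free2_v B g1 g2 g4 v
@[simp] theorem ofM_f3_v (v : V) : (ofM B g0 g1 g2 g3 g4).f3 (vM3 v) = g3 v :=
  free3_v B g1 g3 g4 (free2 B g1 g2 g4) v

/-- the free homomorphism `Mb → B` for `B.al = 0` -/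
def ofMb (hB : B.al = 0) : QHom Mb B where
  f0 := g0 ∘ₗ FM.fst + B.lam ∘ₗ g1 ∘ₗ FM.snd
  f1 := g1
  f2 := free2 B g1 g2 g4
  f3 := free3 B g1 g3 g4 (free2 B g1 g2 g4)
  f4 := g4
  hb := fun l x => free2_b B g1 g2 g4 l x
  hr := fun x => free2_r B g1 g2 g4 x
  hlam := by
    intro x
    show g0 (FM.fst (FM.mk 0 x)) + B.lam (g1 (FM.snd (FM.mk 0 x))) = _
    simp
  hal := by
    intro x
    rw [hB]
    exact map_zero _
  ha := fun i j x => free3_a B g1 g3 g4 (free2 B g1 g2 g4) i j x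
  hc := fun i j x => free3_c B g1 g3 g4 (free2 B g1 g2 g4) i j x
  hu := fun i x => free3_u B g1 g3 g4 (free2 B g1 g2 g4) i x

/-- the free homomorphism `Mp → B` for `B_0 = 0` -/
def ofMp (hB : ∀ x y : B.U0, x = y) : QHom Mp B where
  f0 := 0
  f1 := g1
  f2 := free2 B g1 g2 g4
  f3 := free3 B g1 g3 g4 (free2 B g1 g2 g4)
  f4 := g4
  hb := fun l x => free2_b B g1 g2 g4 l x
  hr := fun x => free2_r B g1 g2 g4 x
  hlam := fun _ => hB _ _
  hal := fun _ => hB _ _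
  ha := fun i j x => free3_a B g1 g3 g4 (free2 B g1 g2 g4) i j x
  hc := fun i j x => free3_c B g1 g3 g4 (free2 B g1 g2 g4) i j x
  hu := fun i x => free3_u B g1 g3 g4 (free2 B g1 g2 g4) i x

end

variable {B : QRep}

/-- homomorphisms out of `M` agree if they agree on `V_0, .., V_4` -/
theorem homM_ext {f g : QHom M B} (h0 : ∀ c, f.f0 (vM0 c) = g.f0 (vM0 c))
    (h1 : ∀ v, f.f1 v = g.f1 v) (h2 : ∀ v, f.f2 (vM2 v) = g.f2 (vM2 v))
    (h3 : ∀ v, f.f3 (vM3 v) = g.f3 (vM3 v)) (h4 : ∀ v, f.f4 v = g.f4 v) : f = g := by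
  have e2 : f.f2 = g.f2 := by
    apply hom_M2_ext h2
    · intro l v
      have hf := f.hb l v
      have hg := g.hb l v
      have : f.f2 (bM l v) = B.b l (f.f1 v) := hf
      rw [this, h1]
      exact hg.symm
    · intro v
      have : f.f2 (rM v) = B.r (f.f4 v) := f.hr v
      rw [this, h4]
      exact (g.hr v).symm
  apply QHom.ext
  · apply hom_M0_ext h0
    · intro v
      have : f.f0 (lamM v) = B.lam (f.f1 v) := f.hlam v
      rw [this, h1]
      exact (g.hlam v).symm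
    · intro m
      have : f.f0 (alM m) = B.al (f.f2 m) := f.hal m
      rw [this, e2]
      exact (g.hal m).symm
  · exact LinearMap.ext h1
  · exact e2
  · apply hom_M3_ext h3
    · intro i j v
      have : f.f3 (aM i j v) = B.a i j (f.f1 v) := f.ha i j v
      rw [this, h1]
      exact (g.ha i j v).symm
    · intro i j m
      have : f.f3 (cM i j m) = B.c i j (f.f2 m) := f.hc i j m
      rw [this, e2]
      exact (g.hc i j m).symm
    · intro i v
      have : f.f3 (uM i v) = B.u i (f.f4 v) := f.hu i v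
      rw [this, h4]
      exact (g.hu i v).symm
  · exact LinearMap.ext h4

/-- homomorphisms out of `Mp` agree if they agree on `V_1, .., V_4` -/
theorem homMp_ext {f g : QHom Mp B}
    (h1 : ∀ v, f.f1 v = g.f1 v) (h2 : ∀ v, f.f2 (vM2 v) = g.f2 (vM2 v))
    (h3 : ∀ v, f.f3 (vM3 v) = g.f3 (vM3 v)) (h4 : ∀ v, f.f4 v = g.f4 v) : f = g := by
  have e2 : f.f2 = g.f2 := by
    apply hom_M2_ext h2
    · intro l v
      have : f.f2 (bM l v) = B.b l (f.f1 v) := f.hb l v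
      rw [this, h1]
      exact (g.hb l v).symm
    · intro v
      have : f.f2 (rM v) = B.r (f.f4 v) := f.hr v
      rw [this, h4]
      exact (g.hr v).symm
  apply QHom.ext
  · exact FM.of_Z_eq _ _
  · exact LinearMap.ext h1
  · exact e2
  · apply hom_M3_ext h3
    · intro i j v
      have : f.f3 (aM i j v) = B.a i j (f.f1 v) := f.ha i j v
      rw [this, h1]
      exact (g.ha i j v).symm
    · intro i j m
      have : f.f3 (cM i j m) = B.c i j (f.f2 m) := f.hc i j m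
      rw [this, e2]
      exact (g.hc i j m).symm
    · intro i v
      have : f.f3 (uM i v) = B.u i (f.f4 v) := f.hu i v
      rw [this, h4]
      exact (g.hu i v).symm
  · exact LinearMap.ext h4

/-- homomorphisms out of `Mb` agree if they agree on `V_0, .., V_4` -/
theorem homMb_ext {f g : QHom Mb B} (h0 : ∀ c, f.f0 (FM.mk c 0) = g.f0 (FM.mk c 0))
    (h1 : ∀ v, f.f1 v = g.f1 v) (h2 : ∀ v, f.f2 (vM2 v) = g.f2 (vM2 v))
    (h3 : ∀ v, f.f3 (vM3 v) = g.f3 (vM3 v)) (h4 : ∀ v, f.f4 v = g.f4 v) : f = g := by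
  have e2 : f.f2 = g.f2 := by
    apply hom_M2_ext h2
    · intro l v
      have : f.f2 (bM l v) = B.b l (f.f1 v) := f.hb l v
      rw [this, h1]
      exact (g.hb l v).symm
    · intro v
      have : f.f2 (rM v) = B.r (f.f4 v) := f.hr v
      rw [this, h4]
      exact (g.hr v).symm
  apply QHom.ext
  · apply FM.hom_prod_ext h0
    intro v
    have : f.f0 (FM.mk 0 v) = B.lam (f.f1 v) := f.hlam v
    rw [this, h1]
    exact (g.hlam v).symm
  · exact LinearMap.ext h1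
  · exact e2
  · apply hom_M3_ext h3
    · intro i j v
      have : f.f3 (aM i j v) = B.a i j (f.f1 v) := f.ha i j v
      rw [this, h1]
      exact (g.ha i j v).symm
    · intro i j m
      have : f.f3 (cM i j m) = B.c i j (f.f2 m) := f.hc i j m
      rw [this, e2]
      exact (g.hc i j m).symm
    · intro i v
      have : f.f3 (uM i v) = B.u i (f.f4 v) := f.hu i v
      rw [this, h4]
      exact (g.hu i v).symm
  · exact LinearMap.ext h4

/-- a homomorphism `M → B` with `B.al = 0` factors through `Mb` -/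
def toB (hB : B.al = 0) (f : QHom M B) : QHom Mb B where
  f0 := f.f0 ∘ₗ ofMb0
  f1 := f.f1
  f2 := f.f2
  f3 := f.f3
  f4 := f.f4
  hb := f.hb
  hr := f.hr
  hlam := fun x => f.hlam x
  hal := by
    intro x
    rw [hB]
    exact map_zero _
  ha := f.ha
  hc := f.hc
  hu := f.hu

theorem toB_comp_toMb (hB : B.al = 0) (f : QHom M B) : (toB hB f).comp toMb = f := by
  apply homM_ext
  · intro c; rfl
  · intro v; rfl
  · intro v; rfl
  · intro v; rfl
  · intro v; rfl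

theorem toB_comp (hB : B.al = 0) (g : QHom Mb B) : toB hB (g.comp toMb) = g := by
  apply homMb_ext
  · intro c; rfl
  · intro v; rfl
  · intro v; rfl
  · intro v; rfl
  · intro v; rfl

theorem toB_comp_bar (hB : B.al = 0) (f : QHom M B) (γ : MM) :
    toB hB (f.comp γ) = (toB hB f).comp (bar γ) := by
  have h : f.comp γ = ((toB hB f).comp (bar γ)).comp toMb := by
    rw [QHom.comp_assoc, ← toMb_comp, ← QHom.comp_assoc, toB_comp_toMb]
  rw [h, toB_comp]

end QA70
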