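import Pool.Agent.Helper70.QA.Data

/-!
# Project AUT (S00834), block A: functoriality (`MM` acts on `Mb, QQ, T`), free homomorphisms
-/

set_option autoImplicit false

namespace QA70

open Helper10.QA

/-! ### operators commute with homomorphisms -/

theorem QHom.tot_op {A B : QRep} (f : QHom A B) (o : Op) (x : A.tot) :
    f.tot (A.op o x) = B.op o (f.tot x) := by
  obtain ⟨x0, x1, x2, x3, x4, rfl⟩ := A.tmk_cases x
  cases o with
  | e v =>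
    simp only [QRep.op]
    split_ifs <;> simp
  | b l => simp [QRep.op, f.hb]
  | r => simp [QRep.op, f.hr]
  | lam => simp [QRep.op, f.hlam]
  | a i j => simp [QRep.op, f.ha]
  | c i j => simp [QRep.op, f.hc]
  | u i => simp [QRep.op, f.hu]

/-- the diagonal map of a homomorphism commutes with the decoder operators -/
theorem QHom.diag_dec {A B : QRep} (f : QHom A B) (l : Fin 3) (x : A.P) :
    f.diag (A.dec l x) = B.dec l (f.diag x) := by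
  fin_cases l
  · show f.diag (A.dec 0 x) = B.dec 0 (f.diag x)
    rw [QRep.dec_zero, QRep.dec_zero]
    rfl
  · show f.diag (A.dec 1 x) = B.dec 1 (f.diag x)
    rw [QRep.dec_one, QRep.dec_one]
    apply FM.pow_ext
    intro i
    exact (diag_dA (k := k) (N := 83) (f.tot : A.tot →ₗ[k] B.tot) (fun i => FM.proj i x) i)
  · show f.diag (A.dec 2 x) = B.dec 2 (f.diag x)
    rw [QRep.dec_two, QRep.dec_two]
    apply FM.pow_ext
    intro i
    exact (diag_dB (k := k) (N := 83) (fun i => A.op (opEquiv i)) (fun i => B.op (opEquiv i))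
      (f.tot : A.tot →ₗ[k] B.tot) (fun i u => f.tot_op _ u) (fun i => FM.proj i x) i)

/-! ### the action of `MM` on `Mb` -/

theorem toMb_comp (γ : MM) : toMb.comp γ = (bar γ).comp toMb := by
  ext x
  · obtain ⟨c, v, m, rfl⟩ : ∃ c v m, x = M0.mk c v m := ⟨_, _, _, rfl⟩
    show toMb0 (γ.f0 (M0.mk c v m)) = toMb0 (γ.f0 (M0.mk c v 0))
    have h1 : (M0.mk c v m : M0) = M0.mk c v 0 + alM m := by
      rw [alM_apply]
      simp
    have h2 : toMb0 (alM (γ.f2 m)) = 0 := rfl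
    rw [h1, map_add, map_add, γ.hal m, h2, add_zero]
  · rfl
  · rfl
  · rfl
  · rfl

theorem bar_f0_toMb0 (γ : MM) (x : M0) : (bar γ).f0 (toMb0 x) = toMb0 (γ.f0 x) := by
  have h := congrArg QHom.f0 (toMb_comp γ)
  exact (LinearMap.congr_fun h x).symm

theorem bar_mul (γ δ : MM) : bar (γ * δ) = bar γ * bar δ := by
  ext x
  · show toMb0 (γ.f0 (δ.f0 (ofMb0 x))) = (bar γ).f0 (toMb0 (δ.f0 (ofMb0 x)))
    rw [bar_f0_toMb0]
  · rfl
  · rfl
  · rfl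
  · rfl

theorem bar_one : bar 1 = 1 := by
  ext x <;> rfl

theorem bar_add (γ δ : MM) : bar (γ + δ) = bar γ + bar δ := by
  ext x
  · show toMb0 (γ.f0 (ofMb0 x) + δ.f0 (ofMb0 x)) = _
    rw [map_add]
    rfl
  · rfl
  · rfl
  · rfl
  · rfl

theorem bar_zero : bar 0 = 0 := by
  ext x
  · show toMb0 0 = 0
    rw [map_zero]
  · rfl
  · rfl
  · rfl
  · rfl

theorem bar_smul (t : k) (γ : MM) : bar (t • γ) = t • bar γ := by
  ext x
  · show toMb0 (t • γ.f0 (ofMb0 x)) = _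
    rw [map_smul]
    rfl
  · rfl
  · rfl
  · rfl
  · rfl

theorem diag_add {A B : QRep} (f g : QHom A B) : (f + g).diag = f.diag + g.diag := rfl
theorem diag_zero {A B : QRep} : (0 : QHom A B).diag = 0 := rfl
theorem diag_smul {A B : QRep} (t : k) (f : QHom A B) : (t • f).diag = t • f.diag := rfl

/-! ### the action of `MM` on `QQ_1, QQ_2` -/

theorem Q2.mk_add (m m' : M2) (c c' : FM.K) (x x' : Mb.P) :
    Q2.mk m c x + Q2.mk m' c' x' = Q2.mk (m + m') (c + c') (x + x') := rfl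
theorem Q2.mk_zero : Q2.mk 0 0 0 = 0 := rfl
theorem Q2.cases (y : Q2) : ∃ m c x, y = Q2.mk m c x := ⟨_, _, _, rfl⟩
theorem Q2.mk_inj {m m' : M2} {c c' : FM.K} {x x' : Mb.P} :
    Q2.mk m c x = Q2.mk m' c' x' ↔ m = m' ∧ c = c' ∧ x = x' := by
  constructor
  · intro h
    exact ⟨congrArg (FM.fst : Q2 →ₗ[k] M2) h,
      congrArg ((FM.fst ∘ₗ FM.snd : Q2 →ₗ[k] FM.K)) h,
      congrArg ((FM.snd ∘ₗ FM.snd : Q2 →ₗ[k] Mb.P)) h⟩
  · rintro ⟨rfl, rfl, rfl⟩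
    rfl
theorem Q1.cases (y : Q1) : ∃ v x, y = FM.mk v x := ⟨_, _, rfl⟩
theorem Q1.mk_inj {v v' : V} {x x' : Mb.P} :
    FM.mk v x = FM.mk v' x' ↔ v = v' ∧ x = x' := by
  constructor
  · intro h
    exact ⟨congrArg (FM.fst : Q1 →ₗ[k] V) h, congrArg (FM.snd : Q1 →ₗ[k] Mb.P) h⟩
  · rintro ⟨rfl, rfl⟩
    rfl
theorem M0.cases (y : M0) : ∃ c v m, y = M0.mk c v m := ⟨_, _, _, rfl⟩
theorem M0.mk_add (c c' : FM.K) (v v' : V) (m m' : M2) :
    M0.mk c v m + M0.mk c' v' m' = M0.mk (c + c') (v + v') (m + m') := rfl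
theorem M0.mk_inj {c c' : FM.K} {v v' : V} {m m' : M2} :
    M0.mk c v m = M0.mk c' v' m' ↔ c = c' ∧ v = v' ∧ m = m' := by
  constructor
  · intro h
    exact ⟨congrArg (FM.fst : M0 →ₗ[k] FM.K) h,
      congrArg ((FM.fst ∘ₗ FM.snd : M0 →ₗ[k] V)) h,
      congrArg ((FM.snd ∘ₗ FM.snd : M0 →ₗ[k] M2)) h⟩
  · rintro ⟨rfl, rfl, rfl⟩
    rfl

theorem diag_m2P (γ : MM) (m : M2) : (bar γ).diag (m2P m) = m2P (γ.f2 m) := by
  show FM.pmap (bar γ).tot (FM.single 0 (Mb.in2 m)) = FM.single 0 (Mb.in2 (γ.f2 m))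
  rw [FM.pmap_single, QRep.in2_apply, QHom.tot_tmk, QRep.in2_apply]
  simp only [map_zero]
  rfl

/-- `i0 : M_0 → QQ_2` is `MM`-equivariant -/
theorem q2_i0 (γ : MM) (m : M0) : q2 γ (i0 m) = i0 (γ.f0 m) := by
  obtain ⟨c, v, m, rfl⟩ := M0.cases m
  have h1 : (M0.mk c v m : M0) = vM0 c + lamM v + alM m := by
    rw [vM0_apply, lamM_apply, alM_apply, M0.mk_add, M0.mk_add]
    simp
  have h2 : i0 (lamM (γ.f1 v)) = Q2.mk (γ.f2 (bM 0 v)) 0 0 := by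
    rw [lamM_apply, i0_mk, map_zero, γ.hb 0 v]
  have h3 : i0 (alM (γ.f2 m)) = Q2.mk 0 0 ((bar γ).diag (m2P m)) := by
    rw [alM_apply, i0_mk, map_zero, diag_m2P]
  rw [i0_mk, q2_mk, h1, map_add, map_add, map_add, map_add, γ.hlam v, γ.hal m, h2, h3]
  abel

theorem q2_bQ (γ : MM) (l : Fin 3) (x : Q1) : q2 γ (bQ l x) = bQ l (q1 γ x) := by
  obtain ⟨v, x, rfl⟩ := Q1.cases x
  rw [bQ_mk, q2_mk, q1_mk, bQ_mk, map_zero, map_zero, map_zero, add_zero, Q2.mk_add,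
    (bar γ).diag_dec l x, γ.hb l v]
  simp

theorem q2_rQ (γ : MM) (v : V) : q2 γ (rQ v) = rQ (γ.f4 v) := by
  rw [rQ_apply, q2_mk, rQ_apply, map_zero, map_zero, map_zero, map_zero, add_zero,
    γ.hr v, Q2.mk_zero, add_zero]

theorem q1_mul (γ δ : MM) : q1 (γ * δ) = q1 γ ∘ₗ q1 δ := by
  ext x
  obtain ⟨v, x, rfl⟩ := Q1.cases x
  rw [LinearMap.comp_apply, q1_mk, q1_mk, q1_mk, bar_mul]
  rfl

theorem q1_one : q1 1 = LinearMap.id := by
  ext x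
  obtain ⟨v, x, rfl⟩ := Q1.cases x
  rw [q1_mk, bar_one]
  rfl

theorem q1_add (γ δ : MM) : q1 (γ + δ) = q1 γ + q1 δ := by
  ext x
  obtain ⟨v, x, rfl⟩ := Q1.cases x
  rw [LinearMap.add_apply, q1_mk, q1_mk, q1_mk, bar_add]
  rfl

theorem q2_mul (γ δ : MM) : q2 (γ * δ) = q2 γ ∘ₗ q2 δ := by
  ext y
  obtain ⟨m, c, x, rfl⟩ := Q2.cases y
  rw [LinearMap.comp_apply, q2_mk, q2_mk, map_add, map_add, q2_mk, q2_i0, q2_mk, bar_mul]
  simp
  rfl

theorem q2_one : q2 1 = LinearMap.id := by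
  ext y
  obtain ⟨m, c, x, rfl⟩ := Q2.cases y
  rw [q2_mk, bar_one]
  show Q2.mk m 0 0 + i0 (vM0 c) + Q2.mk 0 0 x = Q2.mk m c x
  rw [vM0_apply, i0_mk, map_zero, map_zero, Q2.mk_add, Q2.mk_add]
  simp

theorem q2_add (γ δ : MM) : q2 (γ + δ) = q2 γ + q2 δ := by
  ext y
  obtain ⟨m, c, x, rfl⟩ := Q2.cases y
  rw [LinearMap.add_apply, q2_mk, q2_mk, q2_mk, bar_add]
  have h : i0 ((γ + δ).f0 (vM0 c)) = i0 (γ.f0 (vM0 c)) + i0 (δ.f0 (vM0 c)) := by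
    rw [← map_add]; rfl
  have h1 : Q2.mk ((γ + δ).f2 m) 0 0 = Q2.mk (γ.f2 m) 0 0 + Q2.mk (δ.f2 m) 0 0 := by
    rw [Q2.mk_add]; simp
  have h2 : Q2.mk 0 0 ((bar γ + bar δ).diag x) =
      Q2.mk 0 0 ((bar γ).diag x) + Q2.mk 0 0 ((bar δ).diag x) := by
    rw [Q2.mk_add, diag_add]; simp
  rw [h, h1, h2]
  abel

theorem q1_jQ (γ : MM) (m : Mb.tot) : q1 γ (jQ m) = jQ ((bar γ).tot m) := by
  show q1 γ (FM.mk 0 (FM.single 0 m)) = FM.mk 0 (FM.single 0 ((bar γ).tot m))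
  rw [q1_mk, map_zero]
  show FM.mk 0 (FM.pmap (bar γ).tot (FM.single 0 m)) = _
  rw [FM.pmap_single]

/-! ### the action on `T_1, T_2, T_4, F_3, T_3` -/

theorem t2_bT (γ : MM) (l : Fin 3) (x : T1) : t2 γ (bT l x) = bT l (t1 γ x) := by
  apply FM.pow_ext
  intro i
  exact q2_bQ γ l (FM.proj i x)

theorem t2_rT (γ : MM) (x : T4) : t2 γ (rT x) = rT (t4 γ x) := by
  apply FM.pow_ext
  intro i
  exact q2_rQ γ (FM.proj i x)

theorem t1_cp (γ : MM) (i : Fin dd) (x : Q1) : t1 γ (cp1 i x) = cp1 i (q1 γ x) :=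
  FM.pmap_single _ _ _
theorem t2_cp (γ : MM) (i : Fin dd) (x : Q2) : t2 γ (cp2 i x) = cp2 i (q2 γ x) :=
  FM.pmap_single _ _ _
theorem t4_cp (γ : MM) (i : Fin dd) (x : V) : t4 γ (cp4 i x) = cp4 i (γ.f4 x) :=
  FM.pmap_single _ _ _

theorem tF_aF (γ : MM) (i : Fin dd) (j : Fin 2) (x : T1) :
    tF γ (aF i j x) = aF i j (t1 γ x) := by
  rw [aF_apply, aF_apply]
  show FM.mk (FM.pmap (t4 γ) 0) (FM.mk (FM.pmap (t1 γ) (FM.single (i, j) x))
    (FM.pmap (t2 γ) 0)) = _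
  rw [FM.pmap_single, map_zero, map_zero]

theorem tF_cF (γ : MM) (i : Fin dd) (j : Fin 2) (x : T2) :
    tF γ (cF i j x) = cF i j (t2 γ x) := by
  rw [cF_apply, cF_apply]
  show FM.mk (FM.pmap (t4 γ) 0) (FM.mk (FM.pmap (t1 γ) 0)
    (FM.pmap (t2 γ) (FM.single (i, j) x))) = _
  rw [FM.pmap_single, map_zero, map_zero]

theorem tF_uF (γ : MM) (i : Fin dd) (x : T4) : tF γ (uF i x) = uF i (t4 γ x) := by
  rw [uF_apply, uF_apply]
  show FM.mk (FM.pmap (t4 γ) (FM.single i x)) (FM.mk (FM.pmap (t1 γ) 0)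
    (FM.pmap (t2 γ) 0)) = _
  rw [FM.pmap_single, map_zero, map_zero]

/-- the relation map `u` is `MM`-equivariant -/
theorem tF_uu (γ : MM) (m : M.tot) : tF γ (uu m) = uu (γ.tot m) := by
  apply FM.prod_ext
  · apply FM.pow_ext
    intro i
    exact t4_cp γ i _
  · apply FM.prod_ext
    · apply FM.pow_ext
      rintro ⟨i, j⟩
      show t1 γ (cp1 i ((if j = 0 then jQ ∘ₗ toMb.tot else FM.inl ∘ₗ M.pr1) m)) =
        cp1 i ((if j = 0 then jQ ∘ₗ toMb.tot else FM.inl ∘ₗ M.pr1) (γ.tot m))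
      rw [t1_cp]
      congr 1
      by_cases hj : j = 0
      · rw [if_pos hj]
        show q1 γ (jQ (toMb.tot m)) = jQ (toMb.tot (γ.tot m))
        rw [q1_jQ]
        congr 1
        exact (LinearMap.congr_fun (congrArg QHom.tot (toMb_comp γ)) m).symm
      · rw [if_neg hj]
        show q1 γ (FM.mk (M.pr1 m) 0) = FM.mk (M.pr1 (γ.tot m)) 0
        rw [q1_mk, map_zero]
        rfl
    · apply FM.pow_ext
      rintro ⟨i, j⟩
      show t2 γ (cp2 i ((if j = 0 then FM.inl ∘ₗ M.pr2 else i0 ∘ₗ M.pr0) m)) =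
        cp2 i ((if j = 0 then FM.inl ∘ₗ M.pr2 else i0 ∘ₗ M.pr0) (γ.tot m))
      rw [t2_cp]
      congr 1
      by_cases hj : j = 0
      · rw [if_pos hj]
        show q2 γ (Q2.mk (M.pr2 m) 0 0) = Q2.mk (M.pr2 (γ.tot m)) 0 0
        rw [q2_mk, map_zero, map_zero, map_zero, map_zero]
        simp
        rfl
      · rw [if_neg hj]
        exact q2_i0 γ (M.pr0 m)

/-- the action of `MM` on `T_3` -/
noncomputable def t3 (γ : MM) : T3 →ₗ[k] T3 :=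
  FM.qlift (mkT3 ∘ₗ tF γ) (by
    rintro x ⟨m, rfl⟩
    show mkT3 (tF γ (uu m)) = 0
    rw [tF_uu]
    exact FM.mkq_eq_zero.2 ⟨_, rfl⟩)

@[simp] theorem t3_mk (γ : MM) (x : F3) : t3 γ (mkT3 x) = mkT3 (tF γ x) := rfl

/-- the action of `MM` on `T` -/
noncomputable def TT (γ : MM) : QHom T T where
  f0 := t1 γ
  f1 := t1 γ
  f2 := t2 γ
  f3 := t3 γ
  f4 := t4 γ
  hb := fun l x => t2_bT γ l x
  hr := fun x => t2_rT γ x
  hlam := fun _ => rfl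
  hal := fun _ => map_zero _
  ha := fun i j x => congrArg mkT3 (tF_aF γ i j x)
  hc := fun i j x => congrArg mkT3 (tF_cF γ i j x)
  hu := fun i x => congrArg mkT3 (tF_uF γ i x)

/-- the action of `MM` on `Tp` -/
noncomputable def TTp (γ : MM) : QHom Tp Tp where
  f0 := 0
  f1 := t1 γ
  f2 := t2 γ
  f3 := t3 γ
  f4 := t4 γ
  hb := fun l x => t2_bT γ l x
  hr := fun x => t2_rT γ x
  hlam := fun _ => rfl
  hal := fun _ => rfl
  ha := fun i j x => congrArg mkT3 (tF_aF γ i j x)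
  hc := fun i j x => congrArg mkT3 (tF_cF γ i j x)
  hu := fun i x => congrArg mkT3 (tF_uF γ i x)

theorem t1_mul (γ δ : MM) : t1 (γ * δ) = t1 γ ∘ₗ t1 δ := by
  rw [t1, q1_mul, FM.pmap_comp]; rfl
theorem t2_mul (γ δ : MM) : t2 (γ * δ) = t2 γ ∘ₗ t2 δ := by
  rw [t2, q2_mul, FM.pmap_comp]; rfl
theorem t4_mul (γ δ : MM) : t4 (γ * δ) = t4 γ ∘ₗ t4 δ := rfl
theorem t1_one : t1 1 = LinearMap.id := by rw [t1, q1_one, FM.pmap_id]
theorem t2_one : t2 1 = LinearMap.id := by rw [t2, q2_one, FM.pmap_id]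
theorem t4_one : t4 1 = LinearMap.id := rfl
theorem t1_add (γ δ : MM) : t1 (γ + δ) = t1 γ + t1 δ := by
  rw [t1, q1_add]; rfl
theorem t2_add (γ δ : MM) : t2 (γ + δ) = t2 γ + t2 δ := by
  rw [t2, q2_add]; rfl
theorem t4_add (γ δ : MM) : t4 (γ + δ) = t4 γ + t4 δ := rfl
theorem tF_mul (γ δ : MM) : tF (γ * δ) = tF γ ∘ₗ tF δ := by
  rw [tF, t1_mul, t2_mul, t4_mul]; rfl
theorem tF_one : tF 1 = LinearMap.id := by
  rw [tF, t1_one, t2_one, t4_one]; rfl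
theorem tF_add (γ δ : MM) : tF (γ + δ) = tF γ + tF δ := by
  rw [tF, t1_add, t2_add, t4_add]; rfl
theorem t3_mul (γ δ : MM) : t3 (γ * δ) = t3 γ ∘ₗ t3 δ := by
  apply FM.hom_quot_ext
  intro x
  show t3 (γ * δ) (mkT3 x) = t3 γ (t3 δ (mkT3 x))
  rw [t3_mk, t3_mk, t3_mk, tF_mul]; rfl
theorem t3_one : t3 1 = LinearMap.id := by
  apply FM.hom_quot_ext
  intro x
  show t3 1 (mkT3 x) = mkT3 x
  rw [t3_mk, tF_one]; rfl
theorem t3_add (γ δ : MM) : t3 (γ + δ) = t3 γ + t3 δ := by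
  apply FM.hom_quot_ext
  intro x
  show t3 (γ + δ) (mkT3 x) = t3 γ (mkT3 x) + t3 δ (mkT3 x)
  rw [t3_mk, t3_mk, t3_mk, tF_add, ← map_add]; rfl

theorem TT_mul (γ δ : MM) : TT (γ * δ) = TT γ * TT δ :=
  QHom.ext (t1_mul γ δ) (t1_mul γ δ) (t2_mul γ δ) (t3_mul γ δ) (t4_mul γ δ)
theorem TT_one : TT 1 = 1 := QHom.ext t1_one t1_one t2_one t3_one t4_one
theorem TT_add (γ δ : MM) : TT (γ + δ) = TT γ + TT δ :=
  QHom.ext (t1_add γ δ) (t1_add γ δ) (t2_add γ δ) (t3_add γ δ) (t4_add γ δ)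
theorem TTp_mul (γ δ : MM) : TTp (γ * δ) = TTp γ * TTp δ :=
  QHom.ext rfl (t1_mul γ δ) (t2_mul γ δ) (t3_mul γ δ) (t4_mul γ δ)
theorem TTp_one : TTp 1 = 1 :=
  QHom.ext (FM.to_Z_eq _ _) t1_one t2_one t3_one t4_one
theorem TTp_add (γ δ : MM) : TTp (γ + δ) = TTp γ + TTp δ :=
  QHom.ext (FM.to_Z_eq _ _) (t1_add γ δ) (t2_add γ δ) (t3_add γ δ) (t4_add γ δ)

end QA70
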