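import Pool.Agent.Helper70.QA.FM
import Pool.Agent.Helper10.QA.Decoder

/-!
# Project AUT (S00834), block A: representations of the quiver `Q`

Vertices `0,1,2,3,4`.  Arrows `b l : 1 → 2` (`l < 3`), `r : 4 → 2`, `lam : 1 → 0`, `al : 2 → 0`,
`a i j : 1 → 3`, `c i j : 2 → 3` (`i < 15`, `j < 2`), `u i : 4 → 3` (`i < 15`).
Representations of a subquiver are representations with some trivial spaces / zero maps.
-/

set_option autoImplicit false

namespace QA70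

open Helper10.QA

/-- the number of copies -/
abbrev dd : ℕ := 15

/-- a representation of the quiver `Q` -/
structure QRep where
  U0 : FM
  U1 : FM
  U2 : FM
  U3 : FM
  U4 : FM
  b : Fin 3 → U1 →ₗ[k] U2
  r : U4 →ₗ[k] U2
  lam : U1 →ₗ[k] U0
  al : U2 →ₗ[k] U0
  a : Fin dd → Fin 2 → U1 →ₗ[k] U3
  c : Fin dd → Fin 2 → U2 →ₗ[k] U3
  u : Fin dd → U4 →ₗ[k] U3

/-- homomorphisms of representations of `Q` -/
@[ext] structure QHom (A B : QRep) where
  f0 : A.U0 →ₗ[k] B.U0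
  f1 : A.U1 →ₗ[k] B.U1
  f2 : A.U2 →ₗ[k] B.U2
  f3 : A.U3 →ₗ[k] B.U3
  f4 : A.U4 →ₗ[k] B.U4
  hb : ∀ l x, f2 (A.b l x) = B.b l (f1 x)
  hr : ∀ x, f2 (A.r x) = B.r (f4 x)
  hlam : ∀ x, f0 (A.lam x) = B.lam (f1 x)
  hal : ∀ x, f0 (A.al x) = B.al (f2 x)
  ha : ∀ i j x, f3 (A.a i j x) = B.a i j (f1 x)
  hc : ∀ i j x, f3 (A.c i j x) = B.c i j (f2 x)
  hu : ∀ i x, f3 (A.u i x) = B.u i (f4 x)

namespace QHom

variable {A B C D : QRep}

instance : Zero (QHom A B) :=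
  ⟨{ f0 := 0, f1 := 0, f2 := 0, f3 := 0, f4 := 0
     hb := by intros; simp
     hr := by intros; simp
     hlam := by intros; simp
     hal := by intros; simp
     ha := by intros; simp
     hc := by intros; simp
     hu := by intros; simp }⟩

instance : Add (QHom A B) :=
  ⟨fun f g =>
   { f0 := f.f0 + g.f0, f1 := f.f1 + g.f1, f2 := f.f2 + g.f2, f3 := f.f3 + g.f3
     f4 := f.f4 + g.f4
     hb := by intros; simp [f.hb, g.hb]
     hr := by intros; simp [f.hr, g.hr]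
     hlam := by intros; simp [f.hlam, g.hlam]
     hal := by intros; simp [f.hal, g.hal]
     ha := by intros; simp [f.ha, g.ha]
     hc := by intros; simp [f.hc, g.hc]
     hu := by intros; simp [f.hu, g.hu] }⟩

instance : Neg (QHom A B) :=
  ⟨fun f =>
   { f0 := -f.f0, f1 := -f.f1, f2 := -f.f2, f3 := -f.f3, f4 := -f.f4
     hb := by intros; simp [f.hb]
     hr := by intros; simp [f.hr]
     hlam := by intros; simp [f.hlam]
     hal := by intros; simp [f.hal]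
     ha := by intros; simp [f.ha]
     hc := by intros; simp [f.hc]
     hu := by intros; simp [f.hu] }⟩

instance : SMul k (QHom A B) :=
  ⟨fun t f =>
   { f0 := t • f.f0, f1 := t • f.f1, f2 := t • f.f2, f3 := t • f.f3, f4 := t • f.f4
     hb := by intros; simp [f.hb]
     hr := by intros; simp [f.hr]
     hlam := by intros; simp [f.hlam]
     hal := by intros; simp [f.hal]
     ha := by intros; simp [f.ha]
     hc := by intros; simp [f.hc]
     hu := by intros; simp [f.hu] }⟩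

@[simp] theorem zero_f0 : (0 : QHom A B).f0 = 0 := rfl
@[simp] theorem zero_f1 : (0 : QHom A B).f1 = 0 := rfl
@[simp] theorem zero_f2 : (0 : QHom A B).f2 = 0 := rfl
@[simp] theorem zero_f3 : (0 : QHom A B).f3 = 0 := rfl
@[simp] theorem zero_f4 : (0 : QHom A B).f4 = 0 := rfl
@[simp] theorem add_f0 (f g : QHom A B) : (f + g).f0 = f.f0 + g.f0 := rfl
@[simp] theorem add_f1 (f g : QHom A B) : (f + g).f1 = f.f1 + g.f1 := rfl
@[simp] theorem add_f2 (f g : QHom A B) : (f + g).f2 = f.f2 + g.f2 := rfl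
@[simp] theorem add_f3 (f g : QHom A B) : (f + g).f3 = f.f3 + g.f3 := rfl
@[simp] theorem add_f4 (f g : QHom A B) : (f + g).f4 = f.f4 + g.f4 := rfl
@[simp] theorem neg_f0 (f : QHom A B) : (-f).f0 = -f.f0 := rfl
@[simp] theorem neg_f1 (f : QHom A B) : (-f).f1 = -f.f1 := rfl
@[simp] theorem neg_f2 (f : QHom A B) : (-f).f2 = -f.f2 := rfl
@[simp] theorem neg_f3 (f : QHom A B) : (-f).f3 = -f.f3 := rfl
@[simp] theorem neg_f4 (f : QHom A B) : (-f).f4 = -f.f4 := rfl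
@[simp] theorem smul_f0 (t : k) (f : QHom A B) : (t • f).f0 = t • f.f0 := rfl
@[simp] theorem smul_f1 (t : k) (f : QHom A B) : (t • f).f1 = t • f.f1 := rfl
@[simp] theorem smul_f2 (t : k) (f : QHom A B) : (t • f).f2 = t • f.f2 := rfl
@[simp] theorem smul_f3 (t : k) (f : QHom A B) : (t • f).f3 = t • f.f3 := rfl
@[simp] theorem smul_f4 (t : k) (f : QHom A B) : (t • f).f4 = t • f.f4 := rfl

instance : AddCommGroup (QHom A B) where
  add_assoc f g h := by ext <;> simp [add_assoc]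
  zero_add f := by ext <;> simp
  add_zero f := by ext <;> simp
  nsmul := nsmulRec
  zsmul := zsmulRec
  neg_add_cancel f := by ext <;> simp
  add_comm f g := by ext <;> simp [add_comm]

@[simp] theorem sub_f0 (f g : QHom A B) : (f - g).f0 = f.f0 - g.f0 := by
  rw [sub_eq_add_neg, sub_eq_add_neg]; rfl
@[simp] theorem sub_f1 (f g : QHom A B) : (f - g).f1 = f.f1 - g.f1 := by
  rw [sub_eq_add_neg, sub_eq_add_neg]; rfl
@[simp] theorem sub_f2 (f g : QHom A B) : (f - g).f2 = f.f2 - g.f2 := by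
  rw [sub_eq_add_neg, sub_eq_add_neg]; rfl
@[simp] theorem sub_f3 (f g : QHom A B) : (f - g).f3 = f.f3 - g.f3 := by
  rw [sub_eq_add_neg, sub_eq_add_neg]; rfl
@[simp] theorem sub_f4 (f g : QHom A B) : (f - g).f4 = f.f4 - g.f4 := by
  rw [sub_eq_add_neg, sub_eq_add_neg]; rfl

instance : Module k (QHom A B) where
  one_smul f := by ext <;> simp
  mul_smul s t f := by ext <;> simp [mul_smul]
  smul_zero t := by ext <;> simp
  smul_add t f g := by ext <;> simp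
  add_smul s t f := by ext <;> simp [add_smul]
  zero_smul f := by ext <;> simp

/-- composition -/
def comp (g : QHom B C) (f : QHom A B) : QHom A C where
  f0 := g.f0 ∘ₗ f.f0
  f1 := g.f1 ∘ₗ f.f1
  f2 := g.f2 ∘ₗ f.f2
  f3 := g.f3 ∘ₗ f.f3
  f4 := g.f4 ∘ₗ f.f4
  hb := by intros; simp [f.hb, g.hb]
  hr := by intros; simp [f.hr, g.hr]
  hlam := by intros; simp [f.hlam, g.hlam]
  hal := by intros; simp [f.hal, g.hal]
  ha := by intros; simp [f.ha, g.ha]
  hc := by intros; simp [f.hc, g.hc]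
  hu := by intros; simp [f.hu, g.hu]

@[simp] theorem comp_f0 (g : QHom B C) (f : QHom A B) : (g.comp f).f0 = g.f0 ∘ₗ f.f0 := rfl
@[simp] theorem comp_f1 (g : QHom B C) (f : QHom A B) : (g.comp f).f1 = g.f1 ∘ₗ f.f1 := rfl
@[simp] theorem comp_f2 (g : QHom B C) (f : QHom A B) : (g.comp f).f2 = g.f2 ∘ₗ f.f2 := rfl
@[simp] theorem comp_f3 (g : QHom B C) (f : QHom A B) : (g.comp f).f3 = g.f3 ∘ₗ f.f3 := rfl
@[simp] theorem comp_f4 (g : QHom B C) (f : QHom A B) : (g.comp f).f4 = g.f4 ∘ₗ f.f4 := rfl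

/-- the identity -/
def idh (A : QRep) : QHom A A where
  f0 := LinearMap.id
  f1 := LinearMap.id
  f2 := LinearMap.id
  f3 := LinearMap.id
  f4 := LinearMap.id
  hb := by intros; rfl
  hr := by intros; rfl
  hlam := by intros; rfl
  hal := by intros; rfl
  ha := by intros; rfl
  hc := by intros; rfl
  hu := by intros; rfl

@[simp] theorem idh_f0 : (idh A).f0 = LinearMap.id := rfl
@[simp] theorem idh_f1 : (idh A).f1 = LinearMap.id := rfl
@[simp] theorem idh_f2 : (idh A).f2 = LinearMap.id := rfl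
@[simp] theorem idh_f3 : (idh A).f3 = LinearMap.id := rfl
@[simp] theorem idh_f4 : (idh A).f4 = LinearMap.id := rfl

theorem comp_assoc (h : QHom C D) (g : QHom B C) (f : QHom A B) :
    (h.comp g).comp f = h.comp (g.comp f) := rfl

theorem add_comp (g g' : QHom B C) (f : QHom A B) :
    (g + g').comp f = g.comp f + g'.comp f := by ext <;> simp

theorem comp_add (g : QHom B C) (f f' : QHom A B) :
    g.comp (f + f') = g.comp f + g.comp f' := by ext <;> simp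

@[simp] theorem zero_comp (f : QHom A B) : (0 : QHom B C).comp f = 0 := by ext <;> simp
@[simp] theorem comp_zero (g : QHom B C) : g.comp (0 : QHom A B) = 0 := by ext <;> simp
@[simp] theorem id_comp (f : QHom A B) : (idh B).comp f = f := by ext <;> simp
@[simp] theorem comp_id (f : QHom A B) : f.comp (idh A) = f := by ext <;> simp

theorem smul_comp (t : k) (g : QHom B C) (f : QHom A B) :
    (t • g).comp f = t • (g.comp f) := by ext <;> simp

theorem comp_smul (t : k) (g : QHom B C) (f : QHom A B) :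
    g.comp (t • f) = t • (g.comp f) := by ext <;> simp

instance : Mul (QHom A A) := ⟨fun g f => g.comp f⟩
instance : One (QHom A A) := ⟨idh A⟩

theorem mul_def (g f : QHom A A) : g * f = g.comp f := rfl
theorem one_def : (1 : QHom A A) = idh A := rfl

/-- the endomorphism ring -/
instance : Ring (QHom A A) :=
  { (inferInstance : AddCommGroup (QHom A A)) with
    mul_assoc := fun h g f => rfl
    one_mul := fun f => id_comp f
    mul_one := fun f => comp_id f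
    left_distrib := fun g f f' => comp_add g f f'
    right_distrib := fun g g' f => add_comp g g' f
    zero_mul := fun f => zero_comp f
    mul_zero := fun f => comp_zero f }

@[simp] theorem mul_f0 (g f : QHom A A) : (g * f).f0 = g.f0 ∘ₗ f.f0 := rfl
@[simp] theorem mul_f1 (g f : QHom A A) : (g * f).f1 = g.f1 ∘ₗ f.f1 := rfl
@[simp] theorem mul_f2 (g f : QHom A A) : (g * f).f2 = g.f2 ∘ₗ f.f2 := rfl
@[simp] theorem mul_f3 (g f : QHom A A) : (g * f).f3 = g.f3 ∘ₗ f.f3 := rfl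
@[simp] theorem mul_f4 (g f : QHom A A) : (g * f).f4 = g.f4 ∘ₗ f.f4 := rfl
@[simp] theorem one_f0 : (1 : QHom A A).f0 = LinearMap.id := rfl
@[simp] theorem one_f1 : (1 : QHom A A).f1 = LinearMap.id := rfl
@[simp] theorem one_f2 : (1 : QHom A A).f2 = LinearMap.id := rfl
@[simp] theorem one_f3 : (1 : QHom A A).f3 = LinearMap.id := rfl
@[simp] theorem one_f4 : (1 : QHom A A).f4 = LinearMap.id := rfl

theorem smul_mul (t : k) (g f : QHom A A) : (t • g) * f = t • (g * f) := smul_comp t g f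
theorem mul_smul' (t : k) (g f : QHom A A) : g * (t • f) = t • (g * f) := comp_smul t g f

instance : Finite (QHom A B) := by
  have h : Function.Injective (fun f : QHom A B => (f.f0, f.f1, f.f2, f.f3, f.f4)) := by
    intro f g h
    simp only [Prod.mk.injEq] at h
    obtain ⟨h0, h1, h2, h3, h4⟩ := h
    cases f; cases g
    simp_all
  exact Finite.of_injective _ h

end QHom

/-- total space -/
abbrev QRep.tot (A : QRep) : FM := FM.prod A.U0 (FM.prod A.U1 (FM.prod A.U2 (FM.prod A.U3 A.U4)))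

namespace QRep

variable (A : QRep)

/-- elements of the total space -/
abbrev tmk (x0 : A.U0) (x1 : A.U1) (x2 : A.U2) (x3 : A.U3) (x4 : A.U4) : A.tot :=
  FM.mk x0 (FM.mk x1 (FM.mk x2 (FM.mk x3 x4)))

/-- inclusions of the components -/
def in0 : A.U0 →ₗ[k] A.tot := FM.inl
def in1 : A.U1 →ₗ[k] A.tot := FM.inr ∘ₗ FM.inl
def in2 : A.U2 →ₗ[k] A.tot := FM.inr ∘ₗ FM.inr ∘ₗ FM.inl
def in3 : A.U3 →ₗ[k] A.tot := FM.inr ∘ₗ FM.inr ∘ₗ FM.inr ∘ₗ FM.inl
def in4 : A.U4 →ₗ[k] A.tot := FM.inr ∘ₗ FM.inr ∘ₗ FM.inr ∘ₗ FM.inr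

/-- projections to the components -/
def pr0 : A.tot →ₗ[k] A.U0 := FM.fst
def pr1 : A.tot →ₗ[k] A.U1 := FM.fst ∘ₗ FM.snd
def pr2 : A.tot →ₗ[k] A.U2 := FM.fst ∘ₗ FM.snd ∘ₗ FM.snd
def pr3 : A.tot →ₗ[k] A.U3 := FM.fst ∘ₗ FM.snd ∘ₗ FM.snd ∘ₗ FM.snd
def pr4 : A.tot →ₗ[k] A.U4 := FM.snd ∘ₗ FM.snd ∘ₗ FM.snd ∘ₗ FM.snd

@[simp] theorem pr0_tmk (x0 : A.U0) (x1 : A.U1) (x2 : A.U2) (x3 : A.U3) (x4 : A.U4) :
    A.pr0 (A.tmk x0 x1 x2 x3 x4) = x0 := rfl
@[simp] theorem pr1_tmk (x0 : A.U0) (x1 : A.U1) (x2 : A.U2) (x3 : A.U3) (x4 : A.U4) :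
    A.pr1 (A.tmk x0 x1 x2 x3 x4) = x1 := rfl
@[simp] theorem pr2_tmk (x0 : A.U0) (x1 : A.U1) (x2 : A.U2) (x3 : A.U3) (x4 : A.U4) :
    A.pr2 (A.tmk x0 x1 x2 x3 x4) = x2 := rfl
@[simp] theorem pr3_tmk (x0 : A.U0) (x1 : A.U1) (x2 : A.U2) (x3 : A.U3) (x4 : A.U4) :
    A.pr3 (A.tmk x0 x1 x2 x3 x4) = x3 := rfl
@[simp] theorem pr4_tmk (x0 : A.U0) (x1 : A.U1) (x2 : A.U2) (x3 : A.U3) (x4 : A.U4) :
    A.pr4 (A.tmk x0 x1 x2 x3 x4) = x4 := rfl

@[simp] theorem in0_apply (x : A.U0) : A.in0 x = A.tmk x 0 0 0 0 := rfl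
@[simp] theorem in1_apply (x : A.U1) : A.in1 x = A.tmk 0 x 0 0 0 := rfl
@[simp] theorem in2_apply (x : A.U2) : A.in2 x = A.tmk 0 0 x 0 0 := rfl
@[simp] theorem in3_apply (x : A.U3) : A.in3 x = A.tmk 0 0 0 x 0 := rfl
@[simp] theorem in4_apply (x : A.U4) : A.in4 x = A.tmk 0 0 0 0 x := rfl

@[simp] theorem tmk_eta (x : A.tot) :
    A.tmk (A.pr0 x) (A.pr1 x) (A.pr2 x) (A.pr3 x) (A.pr4 x) = x := rfl

theorem tmk_cases (x : A.tot) : ∃ x0 x1 x2 x3 x4, x = A.tmk x0 x1 x2 x3 x4 :=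
  ⟨_, _, _, _, _, rfl⟩

theorem tmk_inj {x0 y0 : A.U0} {x1 y1 : A.U1} {x2 y2 : A.U2} {x3 y3 : A.U3} {x4 y4 : A.U4} :
    A.tmk x0 x1 x2 x3 x4 = A.tmk y0 y1 y2 y3 y4 ↔
      x0 = y0 ∧ x1 = y1 ∧ x2 = y2 ∧ x3 = y3 ∧ x4 = y4 := by
  constructor
  · intro h
    exact ⟨congrArg A.pr0 h, congrArg A.pr1 h, congrArg A.pr2 h, congrArg A.pr3 h,
      congrArg A.pr4 h⟩
  · rintro ⟨rfl, rfl, rfl, rfl, rfl⟩
    rfl

@[simp] theorem tmk_zero : A.tmk 0 0 0 0 0 = 0 := rfl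

theorem tmk_add (x0 y0 : A.U0) (x1 y1 : A.U1) (x2 y2 : A.U2) (x3 y3 : A.U3) (x4 y4 : A.U4) :
    A.tmk x0 x1 x2 x3 x4 + A.tmk y0 y1 y2 y3 y4 =
      A.tmk (x0 + y0) (x1 + y1) (x2 + y2) (x3 + y3) (x4 + y4) := rfl

theorem tot_ext {x y : A.tot} (h0 : A.pr0 x = A.pr0 y) (h1 : A.pr1 x = A.pr1 y)
    (h2 : A.pr2 x = A.pr2 y) (h3 : A.pr3 x = A.pr3 y) (h4 : A.pr4 x = A.pr4 y) : x = y := by
  rw [← A.tmk_eta x, ← A.tmk_eta y, h0, h1, h2, h3, h4]

theorem sum_in (x : A.tot) :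
    A.in0 (A.pr0 x) + A.in1 (A.pr1 x) + A.in2 (A.pr2 x) + A.in3 (A.pr3 x) + A.in4 (A.pr4 x)
      = x := by
  obtain ⟨x0, x1, x2, x3, x4, rfl⟩ := A.tmk_cases x
  simp [tmk_add]

end QRep

/-- total map -/
def QHom.tot {A B : QRep} (f : QHom A B) : A.tot →ₗ[k] B.tot :=
  FM.map f.f0 (FM.map f.f1 (FM.map f.f2 (FM.map f.f3 f.f4)))

@[simp] theorem QHom.tot_tmk {A B : QRep} (f : QHom A B) (x0 : A.U0) (x1 : A.U1) (x2 : A.U2)
    (x3 : A.U3) (x4 : A.U4) :
    f.tot (A.tmk x0 x1 x2 x3 x4) = B.tmk (f.f0 x0) (f.f1 x1) (f.f2 x2) (f.f3 x3) (f.f4 x4) := rfl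

@[simp] theorem QHom.pr0_tot {A B : QRep} (f : QHom A B) (x : A.tot) :
    B.pr0 (f.tot x) = f.f0 (A.pr0 x) := rfl
@[simp] theorem QHom.pr1_tot {A B : QRep} (f : QHom A B) (x : A.tot) :
    B.pr1 (f.tot x) = f.f1 (A.pr1 x) := rfl
@[simp] theorem QHom.pr2_tot {A B : QRep} (f : QHom A B) (x : A.tot) :
    B.pr2 (f.tot x) = f.f2 (A.pr2 x) := rfl
@[simp] theorem QHom.pr3_tot {A B : QRep} (f : QHom A B) (x : A.tot) :
    B.pr3 (f.tot x) = f.f3 (A.pr3 x) := rfl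
@[simp] theorem QHom.pr4_tot {A B : QRep} (f : QHom A B) (x : A.tot) :
    B.pr4 (f.tot x) = f.f4 (A.pr4 x) := rfl

theorem QHom.tot_comp {A B C : QRep} (g : QHom B C) (f : QHom A B) :
    (g.comp f).tot = g.tot ∘ₗ f.tot := rfl
theorem QHom.tot_id {A : QRep} : (QHom.idh A).tot = LinearMap.id := rfl

/-- names of the operators on the total space (idempotents and all arrows except `al`) -/
inductive Op where
  | e (v : Fin 5)
  | b (l : Fin 3)
  | r
  | lam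
  | a (i : Fin dd) (j : Fin 2)
  | c (i : Fin dd) (j : Fin 2)
  | u (i : Fin dd)
  deriving DecidableEq, Fintype

theorem card_Op : Fintype.card Op = 83 + 2 := by
  decide +kernel

/-- an enumeration of the operators -/
noncomputable def opEquiv : Fin (83 + 2) ≃ Op := (Fintype.equivFinOfCardEq card_Op).symm

namespace QRep

variable (A : QRep)

/-- the operators on the total space -/
def op : Op → (A.tot →ₗ[k] A.tot)
  | .e v => if v = 0 then A.in0 ∘ₗ A.pr0 else if v = 1 then A.in1 ∘ₗ A.pr1 else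
      if v = 2 then A.in2 ∘ₗ A.pr2 else if v = 3 then A.in3 ∘ₗ A.pr3 else A.in4 ∘ₗ A.pr4
  | .b l => A.in2 ∘ₗ A.b l ∘ₗ A.pr1
  | .r => A.in2 ∘ₗ A.r ∘ₗ A.pr4
  | .lam => A.in0 ∘ₗ A.lam ∘ₗ A.pr1
  | .a i j => A.in3 ∘ₗ A.a i j ∘ₗ A.pr1
  | .c i j => A.in3 ∘ₗ A.c i j ∘ₗ A.pr2
  | .u i => A.in3 ∘ₗ A.u i ∘ₗ A.pr4

/-- the index set of the decoder coordinates -/
abbrev NC : Type := Fin (83 + 2)

/-- `85` copies of the total space -/
abbrev P : FM := FM.pow NC A.tot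

/-- the three operators `1, A, B` of the decoder -/
noncomputable def dec (l : Fin 3) : A.P →ₗ[k] A.P :=
  if l = 0 then LinearMap.id else if l = 1 then (dA 83 A.tot : (NC → A.tot) →ₗ[k] (NC → A.tot))
    else (dB (fun i => A.op (opEquiv i)) : (NC → A.tot) →ₗ[k] (NC → A.tot))

@[simp] theorem dec_zero : A.dec 0 = LinearMap.id := rfl
theorem dec_one :
    A.dec 1 = (dA 83 A.tot : (NC → A.tot) →ₗ[k] (NC → A.tot)) := rfl
theorem dec_two :
    A.dec 2 = (dB (fun i => A.op (opEquiv i)) : (NC → A.tot) →ₗ[k] (NC → A.tot)) := rfl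


end QRep

/-- the diagonal map of a homomorphism -/
def QHom.diag {A B : QRep} (f : QHom A B) : A.P →ₗ[k] B.P := FM.pmap f.tot

@[simp] theorem QHom.proj_diag {A B : QRep} (f : QHom A B) (x : A.P) (i : QRep.NC) :
    FM.proj i (f.diag x) = f.tot (FM.proj i x) := rfl

theorem QHom.diag_comp {A B C : QRep} (g : QHom B C) (f : QHom A B) :
    (g.comp f).diag = g.diag ∘ₗ f.diag := rfl
theorem QHom.diag_id {A : QRep} : (QHom.idh A).diag = LinearMap.id := rfl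

end QA70
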