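import Pool.Agent.Helper70.QA.Free

/-!
# Project AUT (S00834), block A: `W = Hom_Q(M,R) = Hom(QQ,X)`, `J = W^d = Hom(Tp,X)`, the ring `BB`
-/

set_option autoImplicit false

namespace QA70

open Helper10.QA

/-- the projection `R → T` -/
noncomputable def prT : QHom R T where
  f0 := FM.snd
  f1 := FM.snd
  f2 := FM.snd
  f3 := LinearMap.id
  f4 := FM.snd
  hb := fun _ _ => rfl
  hr := fun _ => rfl
  hlam := fun _ => rfl
  hal := fun _ => rfl
  ha := fun _ _ _ => rfl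
  hc := fun _ _ _ => rfl
  hu := fun _ _ => rfl

theorem T_al : T.al = 0 := rfl

/-- the `T`-part of an element of `W = Hom_Q(M,R)`, a homomorphism `Mb → T` -/
noncomputable def tpart (f : W) : QHom Mb T := toB T_al (prT.comp f)

theorem tpart_comp (f : W) (γ : MM) : tpart (f.comp γ) = (tpart f).comp (bar γ) := by
  rw [tpart, ← QHom.comp_assoc, toB_comp_bar]
  rfl

theorem tpart_f1 (f : W) (v : V) : (tpart f).f1 v = FM.snd (f.f1 v) := rfl
theorem tpart_f2 (f : W) (v : M2) : (tpart f).f2 v = FM.snd (f.f2 v) := rfl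
theorem tpart_f3 (f : W) (v : M3) : (tpart f).f3 v = f.f3 v := rfl
theorem tpart_f4 (f : W) (v : V) : (tpart f).f4 v = FM.snd (f.f4 v) := rfl
theorem tpart_f0 (f : W) (x : M0) : (tpart f).f0 (toMb0 x) = FM.snd (f.f0 x) := by
  have h := congrArg QHom.f0 (toB_comp_toMb T_al (prT.comp f))
  exact LinearMap.congr_fun h x

/-- the component `QQ_1 → X_1`, `(v, x) ↦ (X-part of f v) + diag(f') x` -/
noncomputable def w1 (f : W) : Q1 →ₗ[k] X1 :=
  FM.fst ∘ₗ f.f1 ∘ₗ FM.fst + (tpart f).diag ∘ₗ FM.snd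

/-- the component `QQ_2 → X_2`, `(m, c, x) ↦ (X-part of f m) + (X-part of f (vM0 c)) + diag(f') x` -/
noncomputable def w2 (f : W) : Q2 →ₗ[k] X1 :=
  FM.fst ∘ₗ f.f2 ∘ₗ FM.fst + FM.fst ∘ₗ f.f0 ∘ₗ vM0 ∘ₗ FM.fst ∘ₗ FM.snd +
    (tpart f).diag ∘ₗ FM.snd ∘ₗ FM.snd

/-- the component `QQ_4 → X_4` -/
noncomputable def w4 (f : W) : V →ₗ[k] FM.K := FM.fst ∘ₗ f.f4

theorem w1_mk (f : W) (v : V) (x : Mb.P) :
    w1 f (FM.mk v x) = FM.fst (f.f1 v) + (tpart f).diag x := rfl
theorem w2_mk (f : W) (m : M2) (c : FM.K) (x : Mb.P) :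
    w2 f (Q2.mk m c x) = FM.fst (f.f2 m) + FM.fst (f.f0 (vM0 c)) + (tpart f).diag x := rfl
theorem w4_apply (f : W) (v : V) : w4 f v = FM.fst (f.f4 v) := rfl

theorem fst_f2_b (f : W) (l : Fin 3) (v : V) :
    FM.fst (f.f2 (bM l v)) = T.dec l (FM.fst (f.f1 v)) := congrArg FM.fst (f.hb l v)

theorem w2_bQ (f : W) (l : Fin 3) (x : Q1) : w2 f (bQ l x) = T.dec l (w1 f x) := by
  obtain ⟨v, x, rfl⟩ := Q1.cases x
  rw [bQ_mk, w2_mk, w1_mk, fst_f2_b, map_add, ← QHom.diag_dec, map_zero, map_zero, map_zero,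
    add_zero]

theorem w2_rQ (f : W) (v : V) : w2 f (rQ v) = rX (w4 f v) := by
  rw [rQ_apply, w2_mk, map_zero, map_zero, map_zero, map_zero, add_zero, add_zero]
  exact congrArg FM.fst (f.hr v)

/-- on `M_0 ⊂ QQ_2` the map `w2 f` is the `X`-part of `f` -/
theorem w2_i0 (f : W) (m : M0) : w2 f (i0 m) = FM.fst (f.f0 m) := by
  obtain ⟨c, v, m, rfl⟩ := M0.cases m
  have h1 : (M0.mk c v m : M0) = vM0 c + lamM v + alM m := by
    rw [vM0_apply, lamM_apply, alM_apply]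
    simp
  have h2 : f.f0 (lamM v) = f.f1 v := f.hlam v
  have h3 : f.f0 (alM m) = alR (f.f2 m) := f.hal m
  have h4 : (tpart f).diag (m2P m) = j2 (FM.snd (f.f2 m)) := by
    show FM.pmap (tpart f).tot (FM.single 0 (Mb.in2 m)) = FM.single 0 (T.in2 (FM.snd (f.f2 m)))
    rw [FM.pmap_single, QRep.in2_apply, QHom.tot_tmk, QRep.in2_apply]
    simp only [map_zero]
    rfl
  have h5 : FM.fst (f.f2 (bM 0 v)) = FM.fst (f.f1 v) := by
    rw [fst_f2_b, QRep.dec_zero]
    rfl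
  have h6 : FM.fst (alR (f.f2 m)) = j2 (FM.snd (f.f2 m)) := rfl
  rw [i0_mk, w2_mk, h1, map_add, map_add, map_add, map_add, h2, h3, h4, h5, h6]
  abel

theorem fst_comp_f0 (f : W) (γ : MM) (c : FM.K) :
    FM.fst ((f.comp γ).f0 (vM0 c)) = w2 f (i0 (γ.f0 (vM0 c))) := by
  rw [w2_i0]
  rfl

theorem w1_comp (f : W) (γ : MM) (x : Q1) : w1 (f.comp γ) x = w1 f (q1 γ x) := by
  obtain ⟨v, x, rfl⟩ := Q1.cases x
  rw [q1_mk, w1_mk, w1_mk, tpart_comp]
  rfl

theorem w2_comp (f : W) (γ : MM) (x : Q2) : w2 (f.comp γ) x = w2 f (q2 γ x) := by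
  obtain ⟨m, c, x, rfl⟩ := Q2.cases x
  rw [q2_mk, w2_mk, tpart_comp, fst_comp_f0, map_add, map_add, w2_mk, w2_mk]
  simp only [map_zero, add_zero, zero_add]
  rfl

theorem w4_comp (f : W) (γ : MM) (v : V) : w4 (f.comp γ) v = w4 f (γ.f4 v) := rfl


theorem tpart_add (f g : W) : tpart (f + g) = tpart f + tpart g := by
  rw [tpart, QHom.comp_add]
  rfl
theorem tpart_smul (t : k) (f : W) : tpart (t • f) = t • tpart f := by
  rw [tpart, QHom.comp_smul]
  rfl
theorem w1_add (f g : W) : w1 (f + g) = w1 f + w1 g := by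
  ext x
  obtain ⟨v, x, rfl⟩ := Q1.cases x
  rw [LinearMap.add_apply, w1_mk, w1_mk, w1_mk, tpart_add, diag_add, QHom.add_f1,
    LinearMap.add_apply, LinearMap.add_apply, map_add]
  abel
theorem w2_add (f g : W) : w2 (f + g) = w2 f + w2 g := by
  ext x
  obtain ⟨m, c, x, rfl⟩ := Q2.cases x
  rw [LinearMap.add_apply, w2_mk, w2_mk, w2_mk, tpart_add, diag_add, QHom.add_f2, QHom.add_f0,
    LinearMap.add_apply, LinearMap.add_apply, LinearMap.add_apply, map_add, map_add]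
  abel
theorem w4_add (f g : W) : w4 (f + g) = w4 f + w4 g := by
  ext x
  show FM.fst ((f + g).f4 x) = FM.fst (f.f4 x) + FM.fst (g.f4 x)
  rw [QHom.add_f4, LinearMap.add_apply, map_add]

attribute [irreducible] w1 w2 w4

/-- the homomorphism `QQ → X` of an element of `W` -/
noncomputable def wQ (f : W) : QHom QQ X where
  f0 := 0
  f1 := w1 f
  f2 := w2 f
  f3 := 0
  f4 := w4 f
  hb := w2_bQ f
  hr := w2_rQ f
  hlam := fun _ => rfl
  hal := fun _ => rfl
  ha := fun _ _ _ => rfl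
  hc := fun _ _ _ => rfl
  hu := fun _ _ => rfl

/-! ### `J = W^d` acts `Tp → X` -/

/-- the component `T_1 → X_1` of `η` -/
noncomputable def e1 (η : J) : T1 →ₗ[k] X1 := ∑ i : Fin dd, w1 (η i) ∘ₗ FM.proj i
/-- the component `T_2 → X_2` of `η` -/
noncomputable def e2 (η : J) : T2 →ₗ[k] X1 := ∑ i : Fin dd, w2 (η i) ∘ₗ FM.proj i
/-- the component `T_4 → X_4` of `η` -/
noncomputable def e4 (η : J) : T4 →ₗ[k] FM.K := ∑ i : Fin dd, w4 (η i) ∘ₗ FM.proj i

theorem e1_apply (η : J) (x : T1) : e1 η x = ∑ i, w1 (η i) (FM.proj i x) := by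
  simp [e1, LinearMap.sum_apply]
theorem e2_apply (η : J) (x : T2) : e2 η x = ∑ i, w2 (η i) (FM.proj i x) := by
  simp [e2, LinearMap.sum_apply]
theorem e4_apply (η : J) (x : T4) : e4 η x = ∑ i, w4 (η i) (FM.proj i x) := by
  simp [e4, LinearMap.sum_apply]

attribute [irreducible] e1 e2 e4

theorem e1_cp (η : J) (i : Fin dd) (x : Q1) : e1 η (cp1 i x) = w1 (η i) x := by
  rw [e1_apply, Finset.sum_eq_single i]
  · show w1 (η i) (FM.proj i (FM.single i x)) = _
    rw [FM.proj_single_same]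
  · intro j _ h
    show w1 (η j) (FM.proj j (FM.single i x)) = 0
    rw [FM.proj_single_ne h, map_zero]
  · simp
theorem e2_cp (η : J) (i : Fin dd) (x : Q2) : e2 η (cp2 i x) = w2 (η i) x := by
  rw [e2_apply, Finset.sum_eq_single i]
  · show w2 (η i) (FM.proj i (FM.single i x)) = _
    rw [FM.proj_single_same]
  · intro j _ h
    show w2 (η j) (FM.proj j (FM.single i x)) = 0
    rw [FM.proj_single_ne h, map_zero]
  · simp
theorem e4_cp (η : J) (i : Fin dd) (x : V) : e4 η (cp4 i x) = w4 (η i) x := by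
  rw [e4_apply, Finset.sum_eq_single i]
  · show w4 (η i) (FM.proj i (FM.single i x)) = _
    rw [FM.proj_single_same]
  · intro j _ h
    show w4 (η j) (FM.proj j (FM.single i x)) = 0
    rw [FM.proj_single_ne h, map_zero]
  · simp

/-- the homomorphism `Tp → X` of an element of `J = W^d` -/
noncomputable def etaT (η : J) : QHom Tp X where
  f0 := 0
  f1 := e1 η
  f2 := e2 η
  f3 := 0
  f4 := e4 η
  hb := by
    intro l x
    show e2 η (bT l x) = T.dec l (e1 η x)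
    rw [e2_apply, e1_apply, map_sum]
    exact Finset.sum_congr rfl fun i _ => w2_bQ (η i) l (FM.proj i x)
  hr := by
    intro x
    show e2 η (rT x) = rX (e4 η x)
    rw [e2_apply, e4_apply, map_sum]
    exact Finset.sum_congr rfl fun i _ => w2_rQ (η i) (FM.proj i x)
  hlam := fun _ => FM.Z_eq _ _
  hal := fun _ => FM.Z_eq _ _
  ha := fun _ _ _ => FM.Z_eq _ _
  hc := fun _ _ _ => FM.Z_eq _ _
  hu := fun _ _ => FM.Z_eq _ _

/-- the right action of `MM` on `J` -/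
noncomputable def jcomp (η : J) (γ : MM) : J := fun i => (η i).comp γ

theorem etaT_comp (η : J) (γ : MM) : (etaT η).comp (TTp γ) = etaT (jcomp η γ) := by
  apply QHom.ext
  · rfl
  · ext x
    show e1 η (t1 γ x) = e1 (jcomp η γ) x
    rw [e1_apply, e1_apply]
    exact Finset.sum_congr rfl fun i _ => (w1_comp (η i) γ (FM.proj i x)).symm
  · ext x
    show e2 η (t2 γ x) = e2 (jcomp η γ) x
    rw [e2_apply, e2_apply]
    exact Finset.sum_congr rfl fun i _ => (w2_comp (η i) γ (FM.proj i x)).symm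
  · exact FM.to_Z_eq _ _
  · ext x
    show e4 η (t4 γ x) = e4 (jcomp η γ) x
    rw [e4_apply, e4_apply]
    exact Finset.sum_congr rfl fun i _ => (w4_comp (η i) γ (FM.proj i x)).symm

theorem etaT_add (η η' : J) : etaT (η + η') = etaT η + etaT η' := by
  apply QHom.ext
  · exact FM.to_Z_eq _ _
  · ext x
    show e1 (η + η') x = e1 η x + e1 η' x
    rw [e1_apply, e1_apply, e1_apply, ← Finset.sum_add_distrib]
    exact Finset.sum_congr rfl fun i _ => by rw [Pi.add_apply, w1_add, LinearMap.add_apply]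
  · ext x
    show e2 (η + η') x = e2 η x + e2 η' x
    rw [e2_apply, e2_apply, e2_apply, ← Finset.sum_add_distrib]
    exact Finset.sum_congr rfl fun i _ => by rw [Pi.add_apply, w2_add, LinearMap.add_apply]
  · exact FM.to_Z_eq _ _
  · ext x
    show e4 (η + η') x = e4 η x + e4 η' x
    rw [e4_apply, e4_apply, e4_apply, ← Finset.sum_add_distrib]
    exact Finset.sum_congr rfl fun i _ => by rw [Pi.add_apply, w4_add, LinearMap.add_apply]

/-! ### `Rp = X + Tp` and the elements `(c, η, γ)` of `BB` -/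

/-- `X → Rp` -/
noncomputable def iX : QHom X Rp where
  f0 := 0
  f1 := FM.inl
  f2 := FM.inl
  f3 := 0
  f4 := FM.inl
  hb := by
    intro l x
    show FM.mk (T.dec l x) 0 = FM.mk (T.dec l x) (bT l 0)
    rw [map_zero]
  hr := by
    intro x
    show FM.mk (rX x) 0 = FM.mk (rX x) (rT 0)
    rw [map_zero]
  hlam := fun _ => rfl
  hal := fun _ => rfl
  ha := by
    intro i j x
    show 0 = mkT3 (aF i j 0)
    rw [map_zero, map_zero]
  hc := by
    intro i j x
    show 0 = mkT3 (cF i j 0)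
    rw [map_zero, map_zero]
  hu := by
    intro i x
    show 0 = mkT3 (uF i 0)
    rw [map_zero, map_zero]

/-- `Rp → X` -/
noncomputable def pX : QHom Rp X where
  f0 := 0
  f1 := FM.fst
  f2 := FM.fst
  f3 := 0
  f4 := FM.fst
  hb := fun _ _ => rfl
  hr := fun _ => rfl
  hlam := fun _ => rfl
  hal := fun _ => rfl
  ha := fun _ _ _ => rfl
  hc := fun _ _ _ => rfl
  hu := fun _ _ => rfl

/-- `Tp → Rp` -/
noncomputable def iT : QHom Tp Rp where
  f0 := 0
  f1 := FM.inr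
  f2 := FM.inr
  f3 := LinearMap.id
  f4 := FM.inr
  hb := by
    intro l x
    show FM.mk 0 (bT l x) = FM.mk (T.dec l 0) (bT l x)
    rw [map_zero]
  hr := by
    intro x
    show FM.mk 0 (rT x) = FM.mk (rX 0) (rT x)
    rw [map_zero]
  hlam := fun _ => rfl
  hal := fun _ => rfl
  ha := fun _ _ _ => rfl
  hc := fun _ _ _ => rfl
  hu := fun _ _ => rfl

/-- `Rp → Tp` -/
noncomputable def pT : QHom Rp Tp where
  f0 := 0
  f1 := FM.snd
  f2 := FM.snd
  f3 := LinearMap.id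
  f4 := FM.snd
  hb := fun _ _ => rfl
  hr := fun _ => rfl
  hlam := fun _ => rfl
  hal := fun _ => rfl
  ha := fun _ _ _ => rfl
  hc := fun _ _ _ => rfl
  hu := fun _ _ => rfl

theorem pX_iX : pX.comp iX = QHom.idh X := QHom.ext (FM.to_Z_eq _ _) rfl rfl (FM.to_Z_eq _ _) rfl
theorem pT_iT : pT.comp iT = QHom.idh Tp := QHom.ext (FM.to_Z_eq _ _) rfl rfl rfl rfl
theorem pX_iT : pX.comp iT = 0 := QHom.ext rfl rfl rfl rfl rfl
theorem pT_iX : pT.comp iX = 0 := QHom.ext rfl rfl rfl rfl rfl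
theorem iX_pX_add : iX.comp pX + iT.comp pT = (1 : BB) := by
  apply QHom.ext
  · exact FM.to_Z_eq _ _
  · ext x
    obtain ⟨x, q, rfl⟩ := FM.prod_cases x
    show FM.mk x 0 + FM.mk 0 q = FM.mk x q
    simp
  · ext x
    obtain ⟨x, q, rfl⟩ := FM.prod_cases x
    show FM.mk x 0 + FM.mk 0 q = FM.mk x q
    simp
  · ext x
    show 0 + x = x
    rw [zero_add]
  · ext x
    obtain ⟨x, q, rfl⟩ := FM.prod_cases x
    show FM.mk x 0 + FM.mk 0 q = FM.mk x q
    simp

/-- the element `(c, η, γ)` of `BB` -/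
noncomputable def mkBB (c : k) (η : J) (γ : MM) : BB :=
  iX.comp (c • pX + (etaT η).comp pT) + iT.comp ((TTp γ).comp pT)

theorem mkBB_f1 (c : k) (η : J) (γ : MM) (x : X1) (q : T1) :
    (mkBB c η γ).f1 (FM.mk x q) = FM.mk (c • x + e1 η q) (t1 γ q) := by
  show FM.mk (c • x + e1 η q) 0 + FM.mk 0 (t1 γ q) = _
  simp
theorem mkBB_f2 (c : k) (η : J) (γ : MM) (x : X1) (q : T2) :
    (mkBB c η γ).f2 (FM.mk x q) = FM.mk (c • x + e2 η q) (t2 γ q) := by
  show FM.mk (c • x + e2 η q) 0 + FM.mk 0 (t2 γ q) = _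
  simp
theorem mkBB_f3 (c : k) (η : J) (γ : MM) (q : T3) :
    (mkBB c η γ).f3 q = t3 γ q := by
  show 0 + t3 γ q = _
  rw [zero_add]
theorem mkBB_f4 (c : k) (η : J) (γ : MM) (x : FM.K) (q : T4) :
    (mkBB c η γ).f4 (FM.mk x q) = FM.mk (c • x + e4 η q) (t4 γ q) := by
  show FM.mk (c • x + e4 η q) 0 + FM.mk 0 (t4 γ q) = _
  simp

end QA70
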